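import Mathlib

set_option autoImplicit false

/-!
# Kottwitz sets of the inner forms of `GL_n` over `ℚ_p`

Combinatorial description, through the theorem of Dieudonné and Manin and Kottwitz's description of
`B(G)`. The Kottwitz sets below are sets of Newton points, as vectors of rational numbers.
-/

namespace Pool.Agent.Kottwitz

open Finset

/-- The height at `i` of the polygon with slopes `x 0, x 1, …`: the sum of the first `i` slopes. -/
def poly {n : ℕ} (x : Fin n → ℚ) (i : ℕ) : ℚ :=
  ∑ j ∈ univ.filter (fun j : Fin n => (j : ℕ) < i), x j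

/-- `x` is the slope vector of an element of `B(GL_n)`, `x 0 ≥ x 1 ≥ … ≥ x (n-1)`: by the theorem of
Dieudonné and Manin `B(GL_n)` is in bijection with the decreasing vectors of rational numbers in
which every slope `q = r/s` (in lowest terms) occurs with a multiplicity divisible by `s`. The
Newton point of the element is `x`, its Kottwitz invariant is the sum of the slopes. -/
structure IsSlope {n : ℕ} (x : Fin n → ℚ) : Prop where
  dom : Antitone x
  mult : ∀ q : ℚ, q.den ∣ (univ.filter (fun j => x j = q)).card

/-- The dominant cocharacter `(a+1, …, a+1, a, …, a)` of `GL_n` with `e` entries `a + 1`. -/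
def minu (n : ℕ) (a : ℤ) (e : ℕ) : Fin n → ℤ := fun j => if (j : ℕ) < e then a + 1 else a

/-- Let `G_k` be the inner form `J_c` of `GL_n` given by the basic class `c` with slope `k/n` (every
inner form of `GL_n` is of this form, and every basic class of `B(G_k)` gives some `G_k'`).
The bijection `B(G_k) → B(GL_n)`, `[b] ↦ [bc]`, adds `k/n` to every coordinate of the Newton point
and `k` to the Kottwitz invariant, so `B(G_k)` is the set of vectors `x` for which `x + k/n` is the
slope vector of an element of `B(GL_n)`. `Kott k lam` is the Kottwitz set `B(G_k, lam)`, `lam`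
dominant: the elements of `B(G_k)` with Kottwitz invariant `∑ lam` and Newton point `≤ lam` in the
dominance order. -/
def Kott {n : ℕ} (k : ℤ) (lam : Fin n → ℤ) : Set (Fin n → ℚ) :=
  {x | IsSlope (fun j => x j + (k : ℚ) / n) ∧ ∑ j, x j = ∑ j, (lam j : ℚ) ∧
    ∀ i ≤ n, poly x i ≤ poly (fun j => (lam j : ℚ)) i}

/-- The bijection `B(G_k) → B(G_k')`, `[b'] ↦ [b' b⁻¹]`, in terms of Newton points; here `b` is
basic in `B(G_k)` with Kottwitz invariant `k' - k`. -/
def shift (n : ℕ) (k k' : ℤ) (x : Fin n → ℚ) : Fin n → ℚ := fun j => x j + ((k : ℚ) - k') / n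

end Pool.Agent.Kottwitz
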