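import Pool.Agent.Kottwitz.Defs

set_option autoImplicit false

namespace Pool.Agent.Kottwitz

open Finset

/-! ### arithmetic -/

/-- the floor condition -/
def FC (n : ℕ) (K K' : ℤ) (E E' : ℕ) : Prop :=
  ∀ i : ℕ, 0 < i → i < n → ((min i E : ℕ) : ℤ) + (i * K) / n = ((min i E' : ℕ) : ℤ) + (i * K') / n

/-- the list of solutions -/
def Lst (n : ℕ) (T : ℤ) (E E' : ℕ) : Prop :=
  E = E' ∨
    ((n : ℤ) ∣ T ∧ (E = 0 ∨ E = 1 ∨ E + 1 = n) ∧ (E' = 0 ∨ E' = 1 ∨ E' + 1 = n)) ∨
    ((n : ℤ) ∣ T - (((n + 1) / 2 : ℕ) + 1) ∧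
      ((E + 1 = (n + 1) / 2 ∧ E' = (n + 1) / 2) ∨ (E = (n + 1) / 2 ∧ E' + 1 = (n + 1) / 2))) ∨
    ((n : ℤ) ∣ T - (((n / 2 : ℕ) : ℤ) - 1) ∧
      ((E = n / 2 ∧ E' = n / 2 + 1) ∨ (E = n / 2 + 1 ∧ E' = n / 2)))


theorem sb_large_prod (n K h i h' j : ℤ) (hi : 1 ≤ i) (hj : 1 ≤ j)
    (hdet : h' * i - h * j = 1) (h1 : h * n < i * (K - 1)) (h2 : j * K < h' * n) :
    i * j < n := by
  have e1 : j * (h * n) < j * (i * (K - 1)) := mul_lt_mul_of_pos_left h1 (by linarith)
  have e2 : i * (j * K) < i * (h' * n) := mul_lt_mul_of_pos_left h2 (by linarith)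
  have e3 : n * (h' * i - h * j) = n := by rw [hdet, mul_one]
  nlinarith [e1, e2, e3]

theorem sb_large_sum (n K h i h' j : ℤ) (hi : 1 ≤ i) (hj : 1 ≤ j)
    (hdet : h' * i - h * j = 1) (h1 : h * n < i * (K - 1)) (h2 : j * K < h' * n) :
    i + j ≤ n := by
  have h3 := sb_large_prod n K h i h' j hi hj hdet h1 h2
  nlinarith [mul_nonneg (sub_nonneg.2 hi) (sub_nonneg.2 hj)]

theorem sb_large_bound (n K h i h' j : ℤ) (hn : 17 ≤ n) (hK : 3 ≤ K) (hK2 : K ≤ n - 2)
    (hh : 0 ≤ h) (hhi : h ≤ i) (hh' : 0 ≤ h') (hhj : h' ≤ j)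
    (hi : 1 ≤ i) (hj : 1 ≤ j)
    (hdet : h' * i - h * j = 1) (h1 : h * n < i * (K - 1)) (h2 : j * K < h' * n) :
    2 * (i + j) < n := by
  have hprod := sb_large_prod n K h i h' j hi hj hdet h1 h2
  rcases eq_or_lt_of_le hi with hi1 | hi1
  · -- i = 1
    subst hi1
    have hh0 : h = 0 := by
      have : h < 1 := by
        by_contra hc
        have hc' : 1 ≤ h := by linarith [not_lt.1 hc]
        nlinarith
      linarith
    subst hh0
    have hh'1 : h' = 1 := by linarith
    subst hh'1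
    have : 3 * j ≤ j * K := by nlinarith
    omega
  rcases eq_or_lt_of_le hj with hj1 | hj1
  · -- j = 1
    subst hj1
    have hh'1 : h' = 1 := by
      have h5 : 0 < h' := by
        rcases eq_or_lt_of_le hh' with h6 | h6
        · rw [← h6] at h2; linarith
        · exact h6
      linarith
    subst hh'1
    have hhe : h = i - 1 := by linarith
    subst hhe
    have : 3 * i ≤ i * (n - K + 1) := by nlinarith
    have h7 : i * (n - K + 1) < n := by nlinarith
    omega
  rcases eq_or_lt_of_le (show 2 ≤ i by linarith) with hi2 | hi2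
  · -- i = 2
    subst hi2
    have hh1 : h = 1 := by
      have h5 : h < 2 := by
        by_contra hc
        have hc' : 2 ≤ h := not_lt.1 hc
        nlinarith
      have h6 : h ≠ 0 := by
        rintro rfl
        omega
      omega
    subst hh1
    have h8 : 2 * h' = j + 1 := by linarith
    have h9 : j * (2 * K - n) < n := by nlinarith
    have h10 : 3 ≤ 2 * K - n := by linarith
    have h11 : 3 * j ≤ j * (2 * K - n) := by nlinarith
    omega
  rcases eq_or_lt_of_le (show 2 ≤ j by linarith) with hj2 | hj2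
  · -- j = 2
    subst hj2
    have hh1 : h' = 1 := by
      have h5 : 0 < h' := by
        rcases eq_or_lt_of_le hh' with h6 | h6
        · rw [← h6] at h2; linarith
        · exact h6
      have h6 : h' ≠ 2 := by
        rintro rfl
        omega
      omega
    subst hh1
    have h8 : i = 2 * h + 1 := by linarith
    have h9 : i * (n - 2 * K + 2) < n := by nlinarith
    have h10 : 3 ≤ n - 2 * K + 2 := by linarith
    have h11 : 3 * i ≤ i * (n - 2 * K + 2) := by nlinarith
    omega
  · have h12 : 0 ≤ (i - 3) * (j - 3) := mul_nonneg (by linarith) (by linarith)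
    have h13 : 3 * (i + j) ≤ n + 8 := by nlinarith
    omega

theorem sb_large_aux (n K : ℤ) (hn : 17 ≤ n) (hK : 3 ≤ K) (hK2 : K ≤ n - 2) (m : ℕ) :
    ∀ h i h' j : ℤ, 0 ≤ h → h ≤ i → 0 ≤ h' → h' ≤ j → 1 ≤ i → 1 ≤ j →
      h' * i - h * j = 1 → h * n < i * (K - 1) → j * K < h' * n → n + 1 - (i + j) ≤ m →
      ∃ p q : ℤ, 1 ≤ q ∧ 2 * q < n ∧ q * (K - 1) ≤ p * n ∧ p * n ≤ q * K := by
  induction m with
  | zero =>
    intro h i h' j hh hhi hh' hhj hi hj hdet h1 h2 hm
    have := sb_large_sum n K h i h' j hi hj hdet h1 h2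
    exfalso
    have hm' : n + 1 - (i + j) ≤ 0 := by simpa using hm
    linarith
  | succ m ih =>
    intro h i h' j hh hhi hh' hhj hi hj hdet h1 h2 hm
    have hm' : n + 1 - (i + j) ≤ (m : ℤ) + 1 := by exact_mod_cast hm
    by_cases c1 : (h + h') * n < (i + j) * (K - 1)
    · refine ih (h + h') (i + j) h' j (by linarith) (by linarith) hh' hhj (by linarith) hj
        (by linear_combination hdet) c1 h2 (by linarith)
    · by_cases c2 : (i + j) * K < (h + h') * n
      · refine ih h i (h + h') (i + j) hh hhi (by linarith) (by linarith) hi (by linarith)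
          (by linear_combination hdet) h1 c2 (by linarith)
      · exact ⟨h + h', i + j, by linarith,
          sb_large_bound n K h i h' j hn hK hK2 hh hhi hh' hhj hi hj hdet h1 h2,
          not_lt.1 c1, not_lt.1 c2⟩

theorem sb_large (n K : ℤ) (hn : 17 ≤ n) (hK : 3 ≤ K) (hK2 : K ≤ n - 2) :
    ∃ p q : ℤ, 1 ≤ q ∧ 2 * q < n ∧ q * (K - 1) ≤ p * n ∧ p * n ≤ q * K := by
  refine sb_large_aux n K hn hK hK2 (n + 1).toNat 0 1 1 1 le_rfl (by norm_num) (by norm_num)
    le_rfl le_rfl le_rfl (by norm_num) (by linarith) (by linarith) ?_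
  have : ((n + 1).toNat : ℤ) = n + 1 := Int.toNat_of_nonneg (by linarith)
  rw [this]
  linarith

theorem sb_small_aux : ∀ n ∈ Finset.range 17, ∀ K ∈ Finset.range 15, 5 ≤ n → 3 ≤ K → K + 2 ≤ n →
    ∃ q ∈ Finset.range 8, ∃ p ∈ Finset.range 8, 1 ≤ q ∧ 2 * q < n ∧ q * (K - 1) ≤ p * n ∧
      p * n ≤ q * K := by
  decide

theorem sb_small (n K : ℤ) (hn : 5 ≤ n) (hn2 : n ≤ 16) (hK : 3 ≤ K) (hK2 : K ≤ n - 2) :
    ∃ p q : ℤ, 1 ≤ q ∧ 2 * q < n ∧ q * (K - 1) ≤ p * n ∧ p * n ≤ q * K := by
  lift n to ℕ using (by omega)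
  lift K to ℕ using (by omega)
  obtain ⟨q, -, p, -, h1, h2, h3, h4⟩ := sb_small_aux n (Finset.mem_range.2 (by omega)) K
    (Finset.mem_range.2 (by omega)) (by omega) (by omega) (by omega)
  refine ⟨p, q, by exact_mod_cast h1, by exact_mod_cast h2, ?_, by exact_mod_cast h4⟩
  have hK1 : ((K - 1 : ℕ) : ℤ) = (K : ℤ) - 1 := by omega
  rw [← hK1]
  exact_mod_cast h3

theorem sb_all (n K : ℤ) (hn : 5 ≤ n) (hK : 3 ≤ K) (hK2 : K ≤ n - 2) :
    ∃ p q : ℤ, 1 ≤ q ∧ 2 * q < n ∧ q * (K - 1) ≤ p * n ∧ p * n ≤ q * K := by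
  rcases le_or_gt n 16 with h | h
  · exact sb_small n K hn h hK hK2
  · exact sb_large n K (by omega) hK hK2

theorem fcd_floor (N u : ℤ) (hN : 0 < N) : N * (u / N) ≤ u ∧ u < N * (u / N + 1) := by
  have h1 := Int.mul_ediv_add_emod u N
  have h2 := Int.emod_nonneg u hN.ne'
  have h3 := Int.emod_lt_of_pos u hN
  constructor
  · linarith
  · rw [mul_add, mul_one]; linarith

theorem fcd_refl (N K i : ℤ) (hN : 0 < N) : (N - i) * K / N = K + (-(i * K)) / N := by
  have : (N - i) * K = -(i * K) + K * N := by ring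
  rw [this, Int.add_mul_ediv_right _ _ hN.ne']
  ring

theorem fcd_A (N K i : ℤ) (hN : 0 < N) (h1 : i * K / N = i * (K - 1) / N + 1)
    (h2 : (N - i) * K / N = (N - i) * (K - 1) / N + 1) : N ∣ i * K := by
  rw [fcd_refl N K i hN, fcd_refl N (K - 1) i hN] at h2
  obtain ⟨a1, a2⟩ := fcd_floor N (i * K) hN
  obtain ⟨b1, b2⟩ := fcd_floor N (i * (K - 1)) hN
  obtain ⟨c1, c2⟩ := fcd_floor N (-(i * K)) hN
  obtain ⟨d1, d2⟩ := fcd_floor N (-(i * (K - 1))) hN
  generalize hu : i * K = u at *
  generalize hv : i * (K - 1) = v at *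
  generalize ha : v / N = a at *
  generalize hb : -v / N = b at *
  have hc : -u / N = b := by linarith
  rw [hc] at c1 c2
  rw [h1] at a1 a2
  have e1 : a + 1 ≤ -b := by
    refine le_of_mul_le_mul_left (a := N) ?_ hN
    have : N * (-b) = -(N * b) := by ring
    rw [this]
    linarith
  have e2 : -(a + 1) < b + 1 := by
    refine lt_of_mul_lt_mul_left (a := N) ?_ hN.le
    have : N * (-(a + 1)) = -(N * (a + 1)) := by ring
    rw [this]
    linarith
  have e3 : b = -(a + 1) := by omega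
  refine ⟨a + 1, ?_⟩
  rw [e3] at c1
  have : N * (-(a + 1)) = -(N * (a + 1)) := by ring
  rw [this] at c1
  linarith

theorem fcd_B (N K i : ℤ) (hN : 0 < N) (h1 : i * K / N = i * (K - 1) / N)
    (h2 : (N - i) * K / N = (N - i) * (K - 1) / N) : N ∣ i * (K - 1) := by
  rw [fcd_refl N K i hN, fcd_refl N (K - 1) i hN] at h2
  obtain ⟨a1, a2⟩ := fcd_floor N (i * K) hN
  obtain ⟨b1, b2⟩ := fcd_floor N (i * (K - 1)) hN
  obtain ⟨c1, c2⟩ := fcd_floor N (-(i * K)) hN
  obtain ⟨d1, d2⟩ := fcd_floor N (-(i * (K - 1))) hN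
  generalize hu : i * K = u at *
  generalize hv : i * (K - 1) = v at *
  generalize ha : v / N = a at *
  generalize hb : -v / N = b at *
  have hc : -u / N = b - 1 := by linarith
  rw [hc] at c1 c2
  rw [h1] at a1 a2
  have e1 : b ≤ -a := by
    refine le_of_mul_le_mul_left (a := N) ?_ hN
    have : N * (-a) = -(N * a) := by ring
    rw [this]
    linarith
  have e2 : -(a + 1) < b := by
    refine lt_of_mul_lt_mul_left (a := N) ?_ hN.le
    have e : N * (-(a + 1)) = -(N * (a + 1)) := by ring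
    have e' : N * (b - 1 + 1) = N * b := by ring
    rw [e]
    rw [e'] at c2
    linarith
  have e3 : b = -a := by omega
  refine ⟨a, ?_⟩
  rw [e3] at d1
  have : N * (-a) = -(N * a) := by ring
  rw [this] at d1
  linarith

theorem fc_delta1 (n : ℕ) (hn : 5 ≤ n) (K : ℤ) (E : ℕ) (hK : 2 ≤ K) (hKn : K < n)
    (hE : E + 1 < n) (h : FC n K (K - 1) E (E + 1)) :
    (K = 2 ∧ E + 1 = (n + 1) / 2) ∨ (K = (n : ℤ) - 1 ∧ E = n / 2) := by
  have hN : (0 : ℤ) < n := by omega
  have D0 : ∀ i : ℤ, 0 < i → i ≤ E → i * K / n = i * (K - 1) / n := by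
    intro i hi hiE
    lift i to ℕ using hi.le
    have := h i (by omega) (by omega)
    rw [min_eq_left (by omega), min_eq_left (by omega)] at this
    linarith
  have D1 : ∀ i : ℤ, (E : ℤ) < i → i < n → i * K / n = i * (K - 1) / n + 1 := by
    intro i hi hin
    lift i to ℕ using (by omega)
    have := h i (by omega) (by omega)
    rw [min_eq_right (by omega), min_eq_right (by omega)] at this
    push_cast at this
    linarith
  by_cases hc : 3 ≤ K ∧ K ≤ n - 2
  · exfalso
    obtain ⟨p, q, hq1, hq2, hp1, hp2⟩ := sb_all n K (by omega) hc.1 hc.2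
    by_cases hqE : (E : ℤ) < q
    · have a1 := fcd_A n K q hN (D1 q hqE (by omega)) (D1 (n - q) (by omega) (by omega))
      have a2 := fcd_A n K (q + 1) hN (D1 (q + 1) (by omega) (by omega))
        (D1 (n - (q + 1)) (by omega) (by omega))
      have a3 : (n : ℤ) ∣ K := by
        have := dvd_sub a2 a1
        have e : (q + 1) * K - q * K = K := by ring
        rwa [e] at this
      have := Int.le_of_dvd (by omega) a3
      omega
    · have d0 := D0 q (by omega) (by omega)
      obtain ⟨a1, a2⟩ := fcd_floor n (q * K) hN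
      obtain ⟨b1, b2⟩ := fcd_floor n (q * (K - 1)) hN
      have e1 : p < q * (K - 1) / n + 1 := by
        rw [← d0]
        refine lt_of_mul_lt_mul_left (a := (n : ℤ)) ?_ hN.le
        linarith
      have e2 : (n : ℤ) * p ≤ n * (q * (K - 1) / n) :=
        mul_le_mul_of_nonneg_left (by omega) hN.le
      have e3 : p * n = q * (K - 1) := by linarith
      have e4 : (n : ℤ) - q ≤ E := by
        by_contra hcon
        have d1 := D1 (n - q) (by omega) (by omega)
        rw [fcd_refl n K q hN, fcd_refl n (K - 1) q hN, ← e3,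
          show -(p * (n : ℤ)) = -p * n by ring, Int.mul_ediv_cancel _ hN.ne'] at d1
        obtain ⟨c1, c2⟩ := fcd_floor n (-(q * K)) hN
        have e5 : -(q * K) / (n : ℤ) = -p := by linarith
        rw [e5] at c1
        have e6 : q * K ≤ p * n := by linarith
        rw [e3] at e6
        linarith
      have a1 := fcd_B n K q hN d0 (D0 (n - q) (by omega) (by omega))
      have a2 := fcd_B n K (q + 1) hN (D0 (q + 1) (by omega) (by omega))
        (D0 (n - (q + 1)) (by omega) (by omega))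
      have a3 : (n : ℤ) ∣ K - 1 := by
        have := dvd_sub a2 a1
        have e : (q + 1) * (K - 1) - q * (K - 1) = K - 1 := by ring
        rwa [e] at this
      have := Int.le_of_dvd (by omega) a3
      omega
  · have hd1 := D1 (E + 1) (by omega) (by omega)
    have hK' : K = 2 ∨ K = (n : ℤ) - 1 := by omega
    rcases hK' with hK' | hK'
    · left
      refine ⟨hK', ?_⟩
      subst hK'
      have e1 : ((E : ℤ) + 1) * (2 - 1) / n = 0 := by
        apply Int.ediv_eq_zero_of_lt <;> omega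
      rw [e1] at hd1
      obtain ⟨c1, c2⟩ := fcd_floor n (((E : ℤ) + 1) * 2) hN
      rw [hd1] at c1
      have e2 : n ≤ 2 * (E + 1) := by omega
      have e3 : 2 * E < n := by
        rcases Nat.eq_zero_or_pos E with h0 | h0
        · omega
        · have hd0 := D0 E (by omega) (by omega)
          have e4 : (E : ℤ) * (2 - 1) / n = 0 := by
            apply Int.ediv_eq_zero_of_lt <;> omega
          rw [e4] at hd0
          obtain ⟨c3, c4⟩ := fcd_floor n ((E : ℤ) * 2) hN
          rw [hd0] at c4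
          omega
      omega
    · right
      refine ⟨hK', ?_⟩
      subst hK'
      have key : ∀ i : ℤ, i * ((n : ℤ) - 1) / n = i + (-i) / n := by
        intro i
        rw [show i * ((n : ℤ) - 1) = -i + i * n by ring, Int.add_mul_ediv_right _ _ hN.ne']
        ring
      have key2 : ∀ i : ℤ, i * ((n : ℤ) - 1 - 1) / n = i + (-(2 * i)) / n := by
        intro i
        rw [show i * ((n : ℤ) - 1 - 1) = -(2 * i) + i * n by ring,
          Int.add_mul_ediv_right _ _ hN.ne']
        ring
      have key3 : ∀ i : ℤ, 0 < i → i < n → (-i) / (n : ℤ) = -1 := by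
        intro i h0 h1
        rw [Int.ediv_eq_iff_of_pos hN]
        constructor <;> linarith
      rw [key, key2, key3 _ (by omega) (by omega)] at hd1
      obtain ⟨c1, c2⟩ := fcd_floor n (-(2 * ((E : ℤ) + 1))) hN
      have e1 : -(2 * ((E : ℤ) + 1)) / n = -2 := by linarith
      rw [e1] at c1 c2
      have e2 : n < 2 * (E + 1) := by omega
      have e3 : 2 * E ≤ n := by
        rcases Nat.eq_zero_or_pos E with h0 | h0
        · omega
        · have hd0 := D0 E (by omega) (by omega)
          rw [key, key2, key3 _ (by omega) (by omega)] at hd0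
          obtain ⟨c3, c4⟩ := fcd_floor n (-(2 * (E : ℤ))) hN
          have e5 : -(2 * (E : ℤ)) / n = -1 := by linarith
          rw [e5] at c3 c4
          omega
      omega

theorem fc_zero (n : ℕ) (hn : 4 ≤ n) (K : ℤ) (E' : ℕ) (hK : 0 ≤ K) (hKn : K < n)
    (hE0 : 0 < E') (hE : E' < n) (h : FC n K (K - E') 0 E') :
    K = 0 ∧ (E' = 1 ∨ E' + 1 = n) := by
  have hn0 : (0:ℤ) < n := by omega
  have hn0' : (n:ℤ) ≠ 0 := hn0.ne'
  have key : ∀ (j X : ℤ), (((n:ℤ) - j) * X) / n = (-(j * X)) / n + X := by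
    intro j X
    have : ((n:ℤ) - j) * X = -(j * X) + n * X := by ring
    rw [this, Int.add_mul_ediv_left _ _ hn0']
  have h1 := h 1 one_pos (by omega)
  have e1 : min 1 E' = 1 := by omega
  rw [e1, Nat.min_zero, Nat.cast_one, one_mul, one_mul, Int.ediv_eq_zero_of_lt hK hKn,
    Nat.cast_zero] at h1
  have hlt : K < E' := by
    by_contra hge
    have := Int.ediv_nonneg (sub_nonneg.mpr (not_lt.mp hge)) hn0.le
    omega
  have h2 := h (n - 1) (by omega) (by omega)
  have e2 : min (n - 1) E' = E' := by omega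
  have c2 : ((n - 1 : ℕ) : ℤ) = (n:ℤ) - 1 := by omega
  rw [e2, Nat.min_zero, c2, key, key, one_mul, one_mul, Nat.cast_zero] at h2
  have h3 : (-(K - (E':ℤ))) / n = 0 := Int.ediv_eq_zero_of_lt (by omega) (by omega)
  rw [h3] at h2
  have hK0 : K = 0 := by
    by_contra hne
    have hneg : (-K) / (n:ℤ) < 0 := Int.ediv_neg_of_neg_of_pos (by omega) hn0
    omega
  subst hK0
  refine ⟨rfl, ?_⟩
  by_contra hcon
  push Not at hcon
  obtain ⟨hc1, hc2⟩ := hcon
  have h4 := h 2 two_pos (by omega)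
  have e4 : min 2 E' = 2 := by omega
  rw [e4, Nat.min_zero, mul_zero, Int.zero_ediv] at h4
  have h5 := Int.lt_ediv_add_one_mul_self (((2:ℕ):ℤ) * (0 - (E':ℤ))) hn0
  have h6 : (((2:ℕ):ℤ) * (0 - (E':ℤ))) / n = -2 := by
    push_cast at h4 ⊢
    omega
  rw [h6] at h5
  have h7 := h (n - 2) (by omega) (by omega)
  have e7 : min (n - 2) E' = E' := by omega
  have c7 : ((n - 2 : ℕ) : ℤ) = (n:ℤ) - 2 := by omega
  rw [e7, Nat.min_zero, c7, mul_zero, Int.zero_ediv, key] at h7
  have h8 : (-(2 * (0 - (E':ℤ)))) / n = 0 := by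
    push_cast at h7
    omega
  have h9 := Int.lt_ediv_add_one_mul_self (-(2 * (0 - (E':ℤ)))) hn0
  rw [h8] at h9
  push_cast at h5
  linarith

theorem fc_delta2 (n : ℕ) (hn : 4 ≤ n) (K K' : ℤ) (E E' : ℕ) (hE0 : 1 ≤ E) (hEE : E + 2 ≤ E')
    (hE : E' < n) (hK0 : 0 < K') (hKn : K < n) (hT : K + E = K' + E') (h : FC n K K' E E') :
    E = 1 ∧ E' + 1 = n ∧ K = (n : ℤ) - 1 ∧ K' = 1 := by
  have hN : (0:ℤ) < (n:ℤ) := by exact_mod_cast (by omega : 0 < n)
  have hKK : K' + 2 ≤ K := by
    have : (E:ℤ) + 2 ≤ E' := by exact_mod_cast hEE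
    linarith
  have hfl : ∀ x : ℤ, (x / (n:ℤ)) * n ≤ x ∧ x < (x / (n:ℤ)) * n + n := by
    intro x
    have h1 := Int.mul_ediv_add_emod x n
    have h2 := Int.emod_nonneg x hN.ne'
    have h3 := Int.emod_lt_of_pos x hN
    constructor <;> nlinarith
  have i1 := h E (by omega) (by omega)
  have i2 := h (E + 2) (by omega) (by omega)
  rw [min_eq_left (le_refl E), min_eq_left (by omega : E ≤ E')] at i1
  rw [min_eq_right (by omega : E ≤ E + 2), min_eq_left (by omega : E + 2 ≤ E')] at i2
  have f1 := hfl ((E:ℤ) * K)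
  have f2 := hfl ((E:ℤ) * K')
  have f3 := hfl (((E + 2 : ℕ) : ℤ) * K)
  have f4 := hfl (((E + 2 : ℕ) : ℤ) * K')
  generalize ((E:ℤ) * K) / (n:ℤ) = a at i1 f1
  generalize ((E:ℤ) * K') / (n:ℤ) = b at i1 f2
  generalize (((E + 2 : ℕ) : ℤ) * K) / (n:ℤ) = a2 at i2 f3
  generalize (((E + 2 : ℕ) : ℤ) * K') / (n:ℤ) = b2 at i2 f4
  have eab : a = b := by linarith
  subst eab
  have e2 : a2 = b2 + 2 := by
    push_cast at i2
    linarith
  subst e2
  push_cast at f3 f4
  have g1 : a ≤ b2 := by
    by_contra hc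
    have hc' : b2 + 1 ≤ a := by omega
    have := mul_le_mul_of_nonneg_right hc' hN.le
    nlinarith [f2.1, f4.2]
  have g2 : b2 ≤ a := by
    by_contra hc
    have hc' : a + 1 ≤ b2 := by omega
    have := mul_le_mul_of_nonneg_right hc' hN.le
    nlinarith [f1.2, f3.1]
  have e3 : b2 = a := le_antisymm g2 g1
  subst e3
  have hK2 : (n:ℤ) < 2 * K := by nlinarith [f1.2, f3.1]
  have hK2' : 2 * K' < (n:ℤ) := by nlinarith [f2.1, f4.2]
  have hE1 : E = 1 := by
    by_contra hc
    have hE2 : 2 ≤ E := by omega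
    have i3 := h 2 (by norm_num) (by omega)
    rw [min_eq_left hE2, min_eq_left (by omega : 2 ≤ E')] at i3
    have h1 : (((2:ℕ):ℤ) * K) / (n:ℤ) = 1 := by
      push_cast
      rw [Int.ediv_eq_iff_of_pos hN]
      constructor <;> linarith
    have h2 : (((2:ℕ):ℤ) * K') / (n:ℤ) = 0 := by
      push_cast
      exact Int.ediv_eq_zero_of_lt (by linarith) hK2'
    rw [h1, h2] at i3
    omega
  have hE'1 : E' + 1 = n := by
    by_contra hc
    have i3 := h (n - 2) (by omega) (by omega)
    rw [min_eq_right (by omega : E ≤ n - 2), min_eq_right (by omega : E' ≤ n - 2)] at i3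
    have hc1 : ((n - 2 : ℕ) : ℤ) = (n:ℤ) - 2 := by
      rw [Nat.cast_sub (by omega)]
      rfl
    have h1 : (((n - 2 : ℕ):ℤ) * K) / (n:ℤ) = K - 2 := by
      rw [hc1, Int.ediv_eq_iff_of_pos hN]
      constructor <;> nlinarith
    have h2 : (((n - 2 : ℕ):ℤ) * K') / (n:ℤ) = K' - 1 := by
      rw [hc1, Int.ediv_eq_iff_of_pos hN]
      constructor <;> nlinarith
    rw [h1, h2] at i3
    linarith
  have hz : (E':ℤ) + 1 = n := by exact_mod_cast hE'1
  have hz1 : (E:ℤ) = 1 := by exact_mod_cast hE1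
  refine ⟨hE1, hE'1, ?_, ?_⟩
  · omega
  · omega

theorem fc_small (n : ℕ) (hn : 1 ≤ n) (hn2 : n ≤ 4) (K K' : ℤ) (E E' : ℕ) (hEE : E < E')
    (hE : E' < n) (hK0 : 0 ≤ K) (hKn : K < n) (hT : K + E = K' + E') (h : FC n K K' E E') :
    Lst n (K + E) E E' := by
  obtain rfl : K' = K + E - E' := by omega
  clear hT
  interval_cases n
  · omega
  all_goals
    interval_cases E' <;> first | omega | skip
  all_goals
    interval_cases E <;> first | omega | skip
  all_goals
    interval_cases K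
  all_goals first
    | exact absurd (h 1 (by decide) (by decide)) (by decide)
    | exact absurd (h 2 (by decide) (by decide)) (by decide)
    | exact absurd (h 3 (by decide) (by decide)) (by decide)
    | (unfold Lst; decide)

theorem fc_of_lst_fl (n i : ℕ) (hn : 0 < n) (K c r q : ℤ) (hK : K = n * c + r)
    (h1 : (n : ℤ) * q ≤ i * r) (h2 : (i : ℤ) * r < n * q + n) :
    ((i : ℤ) * K) / n = i * c + q := by
  have hn' : (0 : ℤ) < n := by exact_mod_cast hn
  have e : (i : ℤ) * K = (i * r) + n * (i * c) := by rw [hK]; ring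
  rw [e, Int.add_mul_ediv_left _ _ hn'.ne']
  have h3 : (i : ℤ) * r / n = q := by
    apply le_antisymm
    · have : (i : ℤ) * r / n < q + 1 := Int.ediv_lt_of_lt_mul hn' (by nlinarith)
      omega
    · exact Int.le_ediv_of_mul_le hn' (by nlinarith)
  rw [h3]
  ring

theorem fc_of_lst_c2 (n : ℕ) (c K : ℤ) (E : ℕ) (hE : E < n) (hT : K + E = n * c)
    (h : E = 0 ∨ E = 1 ∨ E + 1 = n) (i : ℕ) (hi : 0 < i) (hin : i < n) :
    ((min i E : ℕ) : ℤ) + (i * K) / n = i * c := by
  have hn : 0 < n := by omega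
  rcases h with h | h | h
  · rw [fc_of_lst_fl n i hn K c 0 0 (by rw [h] at hT; push_cast at hT; linarith) (by simp) (by simp; omega)]
    rw [h]
    simp
  · rw [fc_of_lst_fl n i hn K c (-1) (-1) (by rw [h] at hT; push_cast at hT; linarith) (by omega) (by omega)]
    have : min i E = 1 := by omega
    rw [this]
    push_cast
    ring
  · rw [fc_of_lst_fl n i hn K (c - 1) 1 0 (by
      have : (E : ℤ) = n - 1 := by omega
      rw [this] at hT
      linarith) (by omega) (by omega)]
    have : min i E = i := by omega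
    rw [this]
    ring

theorem fc_of_lst_c3 (n : ℕ) (c K K' : ℤ) (E E' : ℕ) (hE : E < n) (hE' : E' < n)
    (hT : K + E = n * c + ((n + 1) / 2 : ℕ) + 1) (hT' : K' + E' = n * c + ((n + 1) / 2 : ℕ) + 1)
    (h : E + 1 = (n + 1) / 2) (h' : E' = (n + 1) / 2) (i : ℕ) (hi : 0 < i) (hin : i < n) :
    ((min i E : ℕ) : ℤ) + (i * K) / n = ((min i E' : ℕ) : ℤ) + (i * K') / n := by
  have hn : 0 < n := by omega
  have hK : K = n * c + 2 := by
    have : (((n + 1) / 2 : ℕ) : ℤ) = E + 1 := by rw [← h]; push_cast; ring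
    rw [this] at hT
    linarith
  have hK' : K' = n * c + 1 := by
    have : (((n + 1) / 2 : ℕ) : ℤ) = E' := by rw [h']
    rw [this] at hT'
    linarith
  rw [fc_of_lst_fl n i hn K' c 1 0 hK' (by omega) (by omega)]
  by_cases h2 : n ≤ 2 * i
  · rw [fc_of_lst_fl n i hn K c 2 1 hK (by omega) (by omega)]
    have e1 : min i E = E := by omega
    have e2 : min i E' = E + 1 := by omega
    rw [e1, e2]
    push_cast
    ring
  · rw [fc_of_lst_fl n i hn K c 2 0 hK (by omega) (by omega)]
    have e1 : min i E = i := by omega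
    have e2 : min i E' = i := by omega
    rw [e1, e2]

theorem fc_of_lst_c4 (n : ℕ) (c K K' : ℤ) (E E' : ℕ) (hE : E < n) (hE' : E' < n)
    (hT : K + E = n * c + (((n / 2 : ℕ) : ℤ) - 1)) (hT' : K' + E' = n * c + (((n / 2 : ℕ) : ℤ) - 1))
    (h : E = n / 2) (h' : E' = n / 2 + 1) (i : ℕ) (hi : 0 < i) (hin : i < n) :
    ((min i E : ℕ) : ℤ) + (i * K) / n = ((min i E' : ℕ) : ℤ) + (i * K') / n := by
  have hn : 0 < n := by omega
  have hK : K = n * c + (-1) := by
    have : ((n / 2 : ℕ) : ℤ) = E := by rw [h]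
    rw [this] at hT
    linarith
  have hK' : K' = n * c + (-2) := by
    have : ((n / 2 : ℕ) : ℤ) = E' - 1 := by rw [h']; push_cast; ring
    rw [this] at hT'
    linarith
  rw [fc_of_lst_fl n i hn K c (-1) (-1) hK (by omega) (by omega)]
  by_cases h2 : n < 2 * i
  · rw [fc_of_lst_fl n i hn K' c (-2) (-2) hK' (by omega) (by omega)]
    have e1 : min i E = E := by omega
    have e2 : min i E' = E + 1 := by omega
    rw [e1, e2]
    push_cast
    ring
  · rw [fc_of_lst_fl n i hn K' c (-2) (-1) hK' (by omega) (by omega)]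
    have e1 : min i E = i := by omega
    have e2 : min i E' = i := by omega
    rw [e1, e2]

theorem fc_of_lst (n : ℕ) (hn : 1 ≤ n) (K K' : ℤ) (E E' : ℕ) (hE : E < n) (hE' : E' < n)
    (hT : K + E = K' + E') (h : Lst n (K + E) E E') : FC n K K' E E' := by
  intro i hi hin
  rcases h with h | ⟨⟨c, hc⟩, h1, h2⟩ | ⟨⟨c, hc⟩, h | h⟩ | ⟨⟨c, hc⟩, h | h⟩
  · subst h
    have : K = K' := by linarith
    rw [this]
  · rw [fc_of_lst_c2 n c K E hE hc h1 i hi hin, fc_of_lst_c2 n c K' E' hE' (hT ▸ hc) h2 i hi hin]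
  · exact fc_of_lst_c3 n c K K' E E' hE hE' (by linarith) (by linarith) h.1 h.2 i hi hin
  · exact (fc_of_lst_c3 n c K' K E' E hE' hE (by linarith) (by linarith) h.2 h.1 i hi hin).symm
  · exact fc_of_lst_c4 n c K K' E E' hE hE' (by linarith) (by linarith) h.1 h.2 i hi hin
  · exact (fc_of_lst_c4 n c K' K E' E hE' hE (by linarith) (by linarith) h.2 h.1 i hi hin).symm

theorem slope_break {n : ℕ} (x : Fin n → ℚ) (hx : IsSlope x) (i : ℕ) (hi : i ≤ n)
    (hb : ∀ (h0 : 0 < i) (h1 : i < n), x ⟨i, h1⟩ < x ⟨i - 1, by omega⟩) :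
    ∃ z : ℤ, poly x i = z := by
  unfold poly
  set S := univ.filter (fun j : Fin n => (j : ℕ) < i) with hS
  rw [← Finset.sum_fiberwise_of_maps_to (s := S) (t := S.image x) (g := x)
    (fun j hj => Finset.mem_image_of_mem x hj)]
  apply Finset.sum_induction (fun q => ∑ j ∈ S with x j = q, x j) (fun r : ℚ => ∃ z : ℤ, r = z)
  · rintro a b ⟨z, rfl⟩ ⟨w, rfl⟩
    exact ⟨z + w, by push_cast; ring⟩
  · exact ⟨0, by simp⟩
  · intro q hq
    obtain ⟨j0, hj0, hq0⟩ := Finset.mem_image.1 hq
    rw [hS, Finset.mem_filter] at hj0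
    have hf : (S.filter (fun j => x j = q)) = univ.filter (fun j => x j = q) := by
      ext j
      simp only [hS, Finset.mem_filter, Finset.mem_univ, true_and]
      constructor
      · exact fun h => h.2
      · intro h
        refine ⟨?_, h⟩
        by_contra hji
        push Not at hji
        have h1 : i < n := lt_of_le_of_lt hji j.2
        have h0 : 0 < i := lt_of_le_of_lt (Nat.zero_le _) hj0.2
        have h2 := hb h0 h1
        have h3 : x j ≤ x ⟨i, h1⟩ := hx.dom (show (⟨i, h1⟩ : Fin n) ≤ j from hji)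
        have h4 : x ⟨i - 1, by omega⟩ ≤ x j0 := by
          apply hx.dom
          show (j0 : ℕ) ≤ i - 1
          have := hj0.2
          omega
        rw [h] at h3
        rw [hq0] at h4
        exact absurd (lt_of_le_of_lt h3 (lt_of_lt_of_le h2 h4)) (lt_irrefl _)
    have hsum : ∑ j ∈ S with x j = q, x j = ((univ.filter (fun j => x j = q)).card : ℚ) * q := by
      rw [hf]
      rw [Finset.sum_congr rfl (fun j hj => (Finset.mem_filter.1 hj).2), Finset.sum_const,
        nsmul_eq_mul]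
    obtain ⟨m, hm⟩ := hx.mult q
    refine ⟨m * q.num, ?_⟩
    show ∑ j ∈ S with x j = q, x j = _
    rw [hsum, hm]
    push_cast
    rw [mul_comm (q.den : ℚ), mul_assoc, mul_comm (q.den : ℚ), Rat.mul_den_eq_num]

theorem two_slopes_card (n m : ℕ) (hm : m ≤ n) :
    (univ.filter (fun j : Fin n => (j : ℕ) < m)).card = m := by
  have h1 : (univ.filter (fun j : Fin n => (j : ℕ) < m)) =
      (univ : Finset (Fin m)).map (Fin.castLEEmb hm) := by
    ext j
    simp only [mem_filter, mem_univ, true_and, mem_map, Fin.castLEEmb_apply]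
    constructor
    · intro hj
      exact ⟨⟨j, hj⟩, by ext; simp⟩
    · rintro ⟨k, rfl⟩
      simp
  rw [h1, card_map, card_univ, Fintype.card_fin]

theorem two_slopes_poly (n : ℕ) (a b : ℚ) (i m : ℕ) (_hi : i ≤ n) (hm : m ≤ n) :
    poly (fun j : Fin n => if (j : ℕ) < i then a else b) m =
      (m : ℚ) * b + ((min m i : ℕ) : ℚ) * (a - b) := by
  unfold poly
  have h1 : ∀ j : Fin n, (if (j : ℕ) < i then a else b) = b + (if (j : ℕ) < i then (a - b) else 0) := by
    intro j; split_ifs <;> ring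
  simp only [h1]
  rw [sum_add_distrib, sum_const, two_slopes_card n m hm, ← sum_filter, filter_filter]
  have h2 : (univ.filter (fun j : Fin n => (j : ℕ) < m ∧ (j : ℕ) < i)) =
      univ.filter (fun j : Fin n => (j : ℕ) < min m i) := by
    ext j; simp [lt_min_iff]
  rw [h2, sum_const, two_slopes_card n (min m i) (le_trans (min_le_left _ _) hm)]
  simp only [nsmul_eq_mul]

theorem two_slopes (n : ℕ) (T h : ℤ) (i : ℕ) (hi : 0 < i) (hin : i < n)
    (hh : (i : ℚ) * T / n < h) :
    ∃ x : Fin n → ℚ, IsSlope x ∧ ∑ j, x j = T ∧ poly x i = h ∧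
      ∀ m ≤ n, (m ≤ i → poly x m = (m : ℚ) * (h : ℚ) / i) ∧
        (i ≤ m → poly x m = h + ((m : ℚ) - i) * ((T : ℚ) - h) / ((n : ℚ) - i)) := by
  have hiQ : (0 : ℚ) < i := by exact_mod_cast hi
  have hnQ : (0 : ℚ) < n := by exact_mod_cast (lt_trans hi hin)
  have hniQ : (0 : ℚ) < (n : ℚ) - i := by
    have : (i : ℚ) < n := by exact_mod_cast hin
    linarith
  have hh2 : (i : ℚ) * T < h * n := by
    rwa [div_lt_iff₀ hnQ] at hh
  set a : ℚ := (h : ℚ) / i with ha
  set b : ℚ := ((T : ℚ) - h) / ((n : ℚ) - i) with hb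
  have hab : b < a := by
    rw [ha, hb, div_lt_div_iff₀ hniQ hiQ]
    nlinarith
  have hia : (i : ℚ) * a = h := by rw [ha]; field_simp
  have hnb : ((n : ℚ) - i) * b = T - h := by rw [hb]; field_simp
  have hda : a.den ∣ i := by
    have h1 := Rat.den_dvd h (i : ℤ)
    have h2 : ((h : ℚ) / ((i : ℤ) : ℚ)) = a := by rw [ha]; push_cast; rfl
    rw [Rat.divInt_eq_div, h2] at h1
    exact_mod_cast h1
  have hdb : b.den ∣ n - i := by
    have h1 := Rat.den_dvd (T - h) ((n - i : ℕ) : ℤ)
    have h2 : ((((T - h : ℤ)) : ℚ) / ((((n - i : ℕ) : ℤ)) : ℚ)) = b := by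
      rw [hb]; push_cast [Nat.cast_sub hin.le]; rfl
    rw [Rat.divInt_eq_div, h2] at h1
    exact_mod_cast h1
  have hp := fun m hm => two_slopes_poly n a b i m hin.le hm
  refine ⟨fun j => if (j : ℕ) < i then a else b, ⟨?_, ?_⟩, ?_, ?_, ?_⟩
  · intro j k hjk
    have hjk' : (j : ℕ) ≤ k := hjk
    dsimp only
    split_ifs with h1 h2
    · exact le_refl _
    · omega
    · exact hab.le
    · exact le_refl _
  · intro q
    by_cases hqa : q = a
    · have h1 : (univ.filter (fun j : Fin n => (if (j : ℕ) < i then a else b) = q)) =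
          univ.filter (fun j : Fin n => (j : ℕ) < i) := by
        ext j
        simp only [mem_filter, mem_univ, true_and, hqa]
        constructor
        · intro hj
          by_contra hc
          rw [if_neg hc] at hj
          exact absurd hj (ne_of_lt hab)
        · intro hj
          rw [if_pos hj]
      rw [h1, two_slopes_card n i hin.le, hqa]
      exact hda
    · by_cases hqb : q = b
      · have h1 : (univ.filter (fun j : Fin n => (if (j : ℕ) < i then a else b) = q)) =
            univ.filter (fun j : Fin n => ¬ (j : ℕ) < i) := by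
          ext j
          simp only [mem_filter, mem_univ, true_and, hqb]
          constructor
          · intro hj hc
            rw [if_pos hc] at hj
            exact absurd hj (ne_of_gt hab)
          · intro hj
            rw [if_neg hj]
        have h2 : (univ.filter (fun j : Fin n => ¬ (j : ℕ) < i)).card = n - i := by
          have h3 := card_filter_add_card_filter_not (s := (univ : Finset (Fin n)))
            (fun j : Fin n => (j : ℕ) < i)
          rw [two_slopes_card n i hin.le, card_univ, Fintype.card_fin] at h3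
          omega
        rw [h1, h2, hqb]
        exact hdb
      · have h1 : (univ.filter (fun j : Fin n => (if (j : ℕ) < i then a else b) = q)) = ∅ := by
          ext j
          simp only [mem_filter, mem_univ, true_and, notMem_empty, iff_false]
          split_ifs
          · exact fun h => hqa h.symm
          · exact fun h => hqb h.symm
        rw [h1]
        simp
  · have h1 : ∑ j : Fin n, (if (j : ℕ) < i then a else b) =
        poly (fun j : Fin n => if (j : ℕ) < i then a else b) n := by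
      unfold poly
      rw [filter_true_of_mem]
      intro j _
      exact j.2
    rw [h1, hp n le_rfl, min_eq_right hin.le]
    linarith
  · rw [hp i hin.le, min_self]
    linarith
  · intro m hm
    constructor
    · intro hmi
      rw [hp m hm, min_eq_left hmi, ← hia]
      field_simp
      ring
    · intro him
      rw [hp m hm, min_eq_right him, mul_div_assoc, ← hb]
      linarith

theorem minu_poly_succ {n : ℕ} (x : Fin n → ℚ) (i : ℕ) (hi : i < n) :
    poly x (i + 1) = x ⟨i, hi⟩ + poly x i := by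
  unfold poly
  have e : univ.filter (fun j : Fin n => (j : ℕ) < i + 1) =
      insert ⟨i, hi⟩ (univ.filter (fun j : Fin n => (j : ℕ) < i)) := by
    ext j
    simp only [mem_filter, mem_univ, true_and, mem_insert, Fin.ext_iff]
    omega
  rw [e, sum_insert (by simp)]

theorem minu_poly (n : ℕ) (a : ℤ) (e : ℕ) (he : e < n) (i : ℕ) (hi : i ≤ n) :
    poly (fun j => (minu n a e j : ℚ)) i = (i : ℚ) * a + ((min i e : ℕ) : ℚ) := by
  induction i with
  | zero => simp [poly]
  | succ i ih =>
    rw [minu_poly_succ _ i (by omega), ih (by omega)]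
    unfold minu
    by_cases h : i < e
    · have h1 : min i e = i := by omega
      have h2 : min (i + 1) e = i + 1 := by omega
      rw [h1, h2]
      simp only [h, if_true]
      push_cast
      ring
    · have h1 : min i e = e := by omega
      have h2 : min (i + 1) e = e := by omega
      rw [h1, h2]
      simp only [h, if_false]
      push_cast
      ring

theorem pl_succ {n : ℕ} (x : Fin n → ℚ) (i : ℕ) (h : i < n) :
    poly x (i + 1) = poly x i + x ⟨i, h⟩ := by
  unfold poly
  have e : univ.filter (fun j : Fin n => (j : ℕ) < i + 1) =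
      insert ⟨i, h⟩ (univ.filter (fun j : Fin n => (j : ℕ) < i)) := by
    ext j
    simp only [mem_filter, mem_univ, true_and, mem_insert, Fin.ext_iff]
    omega
  rw [e, sum_insert (by simp), add_comm]

theorem polygon_le (n : ℕ) (x : Fin n → ℚ) (hx : IsSlope x) (T : ℤ) (hT : ∑ j, x j = T)
    (K K' : ℤ) (E E' : ℕ) (hE : E < n) (hE' : E' < n) (h1 : K + E = T) (h2 : K' + E' = T)
    (hle : ∀ i ≤ n, poly x i ≤ ((min i E : ℕ) : ℚ) + (i : ℚ) * K / n) (hfc : FC n K K' E E') :
    ∀ i ≤ n, poly x i ≤ ((min i E' : ℕ) : ℚ) + (i : ℚ) * K' / n := by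
  intro i0 hi0
  by_contra hcon
  rw [not_le] at hcon
  have hn : 0 < n := by omega
  have hnq : (0 : ℚ) < n := by exact_mod_cast hn
  obtain ⟨g, hg⟩ : ∃ g : ℕ → ℚ, g = fun i => poly x i - (((min i E' : ℕ) : ℚ) + (i : ℚ) * K' / n) :=
    ⟨_, rfl⟩
  obtain ⟨m, hm, hmax⟩ := Finset.exists_max_image (Finset.range (n + 1)) g ⟨0, by simp⟩
  have hex : ∃ i, i ≤ n ∧ g i = g m := ⟨m, by
    rw [mem_range] at hm; omega, rfl⟩
  obtain ⟨i, ⟨hi1, hi2⟩, hmin⟩ : ∃ i, (i ≤ n ∧ g i = g m) ∧ ∀ j < i, ¬ (j ≤ n ∧ g j = g m) :=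
    ⟨Nat.find hex, Nat.find_spec hex, fun j hj => Nat.find_min hex hj⟩
  have hpos : 0 < g i := by
    have h3 := hmax i0 (by rw [mem_range]; omega)
    have h4 : 0 < g i0 := by
      rw [hg]
      simp only
      linarith
    linarith
  have hi_pos : 0 < i := by
    rcases Nat.eq_zero_or_pos i with h0 | h0
    · exfalso
      rw [h0, hg] at hpos
      simp [poly] at hpos
    · exact h0
  have hi_lt : i < n := by
    rcases Nat.lt_or_ge i n with h0 | h0
    · exact h0
    · exfalso
      have hin : i = n := by omega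
      rw [hin, hg] at hpos
      have e1 : poly x n = T := by
        rw [← hT]
        unfold poly
        congr 1
        ext j
        simp
      have e2 : (n : ℚ) * K' / n = K' := by field_simp
      have e3 : min n E' = E' := by omega
      simp only [e1, e2, e3] at hpos
      have h5 : (K' : ℚ) + E' = T := by exact_mod_cast h2
      linarith
  obtain ⟨k, hk⟩ : ∃ k, i = k + 1 := ⟨i - 1, by omega⟩
  have hgk : g k < g i := by
    have h3 : g k ≤ g m := hmax k (by rw [mem_range]; omega)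
    have h4 : g k ≠ g m := fun h => hmin k (by omega) ⟨by omega, h⟩
    rw [hi2]
    exact lt_of_le_of_ne h3 h4
  have hgi : g (i + 1) ≤ g i := by
    rw [hi2]
    exact hmax (i + 1) (by rw [mem_range]; omega)
  have hb : x ⟨i, hi_lt⟩ < x ⟨k, by omega⟩ := by
    have e1 := pl_succ x i hi_lt
    have e2 := pl_succ x k (by omega)
    rw [← hk] at e2
    rw [hg] at hgk hgi
    simp only at hgk hgi
    have c1 : ((min (i + 1) E' : ℕ) : ℚ) + ((min k E' : ℕ) : ℚ) ≤
        ((min i E' : ℕ) : ℚ) + ((min i E' : ℕ) : ℚ) := by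
      have : min (i + 1) E' + min k E' ≤ min i E' + min i E' := by omega
      exact_mod_cast this
    have c2 : (((i + 1 : ℕ)) : ℚ) * K' / n + ((k : ℕ) : ℚ) * K' / n =
        (i : ℚ) * K' / n + (i : ℚ) * K' / n := by
      rw [hk]
      push_cast
      ring
    linarith
  obtain ⟨z, hz⟩ := slope_break x hx i hi1 (fun h0 h1' => by
    have : (⟨i - 1, by omega⟩ : Fin n) = ⟨k, by omega⟩ := by
      apply Fin.ext
      simp only
      omega
    rw [this]
    exact hb)
  have h6 := hle i hi1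
  rw [hz] at h6
  have h7 : z - ((min i E : ℕ) : ℤ) ≤ (i * K) / n := by
    rw [Int.le_ediv_iff_mul_le (by exact_mod_cast hn)]
    have h8 : ((z : ℚ) - ((min i E : ℕ) : ℚ)) * n ≤ (i : ℚ) * K := by
      rw [← le_div_iff₀ hnq]
      linarith
    exact_mod_cast h8
  have h9 : z ≤ ((min i E' : ℕ) : ℤ) + (i * K') / n := by
    rw [← hfc i hi_pos hi_lt]
    linarith
  have h10 : (((i * K') / n : ℤ) : ℚ) ≤ (i : ℚ) * K' / n := by
    rw [le_div_iff₀ hnq]
    have := Int.ediv_mul_le ((i : ℤ) * K') (show (n : ℤ) ≠ 0 by exact_mod_cast hn.ne')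
    exact_mod_cast this
  have h11 : (z : ℚ) ≤ ((min i E' : ℕ) : ℚ) + (((i * K') / n : ℤ) : ℚ) := by exact_mod_cast h9
  rw [hg] at hpos
  simp only at hpos
  rw [hz] at hpos
  linarith


theorem FC.symm {n : ℕ} {K K' : ℤ} {E E' : ℕ} (h : FC n K K' E E') : FC n K' K E' E :=
  fun i h0 h1 => (h i h0 h1).symm

theorem FC.shift {n : ℕ} (hn : 1 ≤ n) {K K' : ℤ} {E E' : ℕ} (c : ℤ) (h : FC n K K' E E') :
    FC n (K - n * c) (K' - n * c) E E' := by
  intro i h0 h1
  have hn' : (n : ℤ) ≠ 0 := by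
    have : (0 : ℤ) < n := by exact_mod_cast hn
    exact this.ne'
  have e1 : ∀ L : ℤ, ((i : ℤ) * (L - n * c)) / n = (i * L) / n - i * c := by
    intro L
    have : (i : ℤ) * (L - n * c) = i * L + n * (-(i * c)) := by ring
    rw [this, Int.add_mul_ediv_left _ _ hn']
    ring
  rw [e1, e1]
  have := h i h0 h1
  linarith

theorem Lst.symm {n : ℕ} {T : ℤ} {E E' : ℕ} (h : Lst n T E E') : Lst n T E' E := by
  unfold Lst at *
  rcases h with h | ⟨h1, h2, h3⟩ | ⟨h1, h2⟩ | ⟨h1, h2⟩
  · left; exact h.symm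
  · right; left; exact ⟨h1, h3, h2⟩
  · right; right; left
    refine ⟨h1, ?_⟩
    rcases h2 with ⟨a, b⟩ | ⟨a, b⟩
    · right; exact ⟨b, a⟩
    · left; exact ⟨b, a⟩
  · right; right; right
    refine ⟨h1, ?_⟩
    rcases h2 with ⟨a, b⟩ | ⟨a, b⟩
    · right; exact ⟨b, a⟩
    · left; exact ⟨b, a⟩

theorem Lst.shift {n : ℕ} {T : ℤ} {E E' : ℕ} (c : ℤ) (h : Lst n T E E') :
    Lst n (T + n * c) E E' := by
  unfold Lst at *
  have hd : ∀ u : ℤ, (n : ℤ) ∣ u → (n : ℤ) ∣ u + n * c := fun u hu => dvd_add hu (dvd_mul_right _ _)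
  rcases h with h | ⟨h1, h2, h3⟩ | ⟨h1, h2⟩ | ⟨h1, h2⟩
  · left; exact h
  · right; left; exact ⟨hd _ h1, h2, h3⟩
  · right; right; left
    refine ⟨?_, h2⟩
    have := hd _ h1
    rwa [sub_add_eq_add_sub] at this
  · right; right; right
    refine ⟨?_, h2⟩
    have := hd _ h1
    rwa [sub_add_eq_add_sub] at this

theorem arith_lt (n : ℕ) (hn : 1 ≤ n) (K K' : ℤ) (E E' : ℕ) (hEE : E < E') (hE' : E' < n)
    (hK0 : 0 ≤ K) (hKn : K < n)
    (hT : K + E = K' + E') (h : FC n K K' E E') : Lst n (K + E) E E' := by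
  rcases Nat.lt_or_ge n 5 with h5 | h5
  · exact fc_small n hn (by omega) K K' E E' hEE hE' hK0 hKn hT h
  have hnZ : (0 : ℤ) < n := by exact_mod_cast hn
  rcases Nat.eq_zero_or_pos E with h0 | h0
  · subst h0
    have hK' : K' = K - E' := by push_cast at hT; linarith
    rw [hK'] at h
    obtain ⟨h1, h2⟩ := fc_zero n (by omega) K E' hK0 hKn (by omega) hE' h
    right; left
    refine ⟨?_, Or.inl rfl, Or.inr h2⟩
    rw [h1]; simp
  · -- positivity of K'
    have hEEz : (E : ℤ) < E' := by exact_mod_cast hEE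
    have hK'lt : K' < K := by linarith
    have hK'0 : 0 ≤ K' := by
      have h1 := h 1 (by omega) (by omega)
      have e1 : min 1 E = 1 := by omega
      have e2 : min 1 E' = 1 := by omega
      rw [e1, e2] at h1
      simp only [Nat.cast_one, one_mul] at h1
      have h2 : K / n = 0 := Int.ediv_eq_zero_of_lt hK0 hKn
      rw [h2] at h1
      have h3 : K' / n = 0 := by linarith
      have h4 := Int.emod_nonneg K' hnZ.ne'
      have h5 := Int.emod_add_mul_ediv K' n
      rw [h3] at h5
      linarith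
    have hK'pos : 0 < K' := by
      rcases hK'0.lt_or_eq with h1 | h1
      · exact h1
      · exfalso
        have h2 := h (n - 1) (by omega) (by omega)
        have e1 : min (n - 1) E = E := by omega
        have e2 : min (n - 1) E' = E' := by omega
        rw [e1, e2, ← h1] at h2
        simp only [mul_zero, Int.zero_ediv, add_zero] at h2
        have h3 : (((n - 1 : ℕ) : ℤ) * K) / n = K := by
          have : K = (E' : ℤ) - E := by linarith
          linarith
        have h4 : K * n ≤ ((n - 1 : ℕ) : ℤ) * K := by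
          have := Int.ediv_mul_le (((n - 1 : ℕ) : ℤ) * K) hnZ.ne'
          rw [h3] at this
          exact this
        have h5 : ((n - 1 : ℕ) : ℤ) = (n : ℤ) - 1 := by
          rw [Nat.cast_sub hn]; simp
        rw [h5] at h4
        nlinarith
    rcases Nat.lt_or_ge (E + 1) E' with h2 | h2
    · obtain ⟨a1, a2, a3, a4⟩ := fc_delta2 n (by omega) K K' E E' h0 (by omega) hE' hK'pos hKn hT h
      right; left
      refine ⟨?_, Or.inr (Or.inl a1), Or.inr (Or.inr a2)⟩
      rw [a3, a1]; simp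
    · have hE1 : E' = E + 1 := by omega
      subst hE1
      have hK1 : K' = K - 1 := by push_cast at hT; linarith
      rw [hK1] at h
      rcases fc_delta1 n h5 K E (by linarith) hKn hE' h with ⟨a1, a2⟩ | ⟨a1, a2⟩
      · right; right; left
        refine ⟨?_, Or.inl ⟨a2, by omega⟩⟩
        have : ((n + 1) / 2 : ℕ) = E + 1 := a2.symm
        rw [this, a1]
        push_cast
        ring_nf
        exact dvd_zero _
      · right; right; right
        refine ⟨?_, Or.inl ⟨a2, by omega⟩⟩
        have : (n / 2 : ℕ) = E := a2.symm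
        rw [this, a1]
        ring_nf
        exact dvd_refl _

theorem arith (n : ℕ) (hn : 1 ≤ n) (K K' : ℤ) (E E' : ℕ) (hE : E < n) (hE' : E' < n)
    (hT : K + E = K' + E') : FC n K K' E E' ↔ Lst n (K + E) E E' := by
  constructor
  · intro h
    have hnZ : (0 : ℤ) < n := by exact_mod_cast hn
    rcases lt_trichotomy E E' with hlt | heq | hgt
    · have h1 := arith_lt n hn (K - n * (K / n)) (K' - n * (K / n)) E E' hlt hE'
        (by have := Int.emod_nonneg K hnZ.ne'; rw [Int.emod_def] at this; exact this)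
        (by have := Int.emod_lt_of_pos K hnZ; rw [Int.emod_def] at this; exact this)
        (by linarith) (h.shift hn _)
      have h2 := h1.shift (K / n)
      have e : K - n * (K / n) + E + n * (K / n) = K + E := by ring
      rwa [e] at h2
    · left; exact heq
    · have h1 := arith_lt n hn (K' - n * (K' / n)) (K - n * (K' / n)) E' E hgt hE
        (by have := Int.emod_nonneg K' hnZ.ne'; rw [Int.emod_def] at this; exact this)
        (by have := Int.emod_lt_of_pos K' hnZ; rw [Int.emod_def] at this; exact this)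
        (by linarith) (h.symm.shift hn _)
      have h2 := (h1.shift (K' / n)).symm
      have e : K' - n * (K' / n) + E' + n * (K' / n) = K + E := by rw [hT]; ring
      rwa [e] at h2
  · exact fc_of_lst n hn K K' E E' hE hE' hT



/-- the Kottwitz set, transported to `B(GL_n)` -/
def SS (n : ℕ) (K : ℤ) (E : ℕ) : Set (Fin n → ℚ) :=
  {y | IsSlope y ∧ ∑ j, y j = ((K + E : ℤ) : ℚ) ∧
    ∀ i ≤ n, poly y i ≤ ((min i E : ℕ) : ℚ) + (i : ℚ) * K / n}

theorem poly_add {n : ℕ} (x : Fin n → ℚ) (c : ℚ) (i : ℕ) (hi : i ≤ n) :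
    poly (fun j => x j + c) i = poly x i + i * c := by
  unfold poly
  rw [Finset.sum_add_distrib, Finset.sum_const, nsmul_eq_mul]
  congr 2
  have : (univ.filter (fun j : Fin n => (j : ℕ) < i)).card = i := by
    rw [Fin.card_filter_val_lt]
    omega
  exact_mod_cast this

theorem poly_full {n : ℕ} (x : Fin n → ℚ) : poly x n = ∑ j, x j := by
  unfold poly
  rw [Finset.filter_true_of_mem]
  intro j _
  exact j.2

theorem kott_iff (n : ℕ) (hn : 1 ≤ n) (k a : ℤ) (e : ℕ) (he : e < n) (x : Fin n → ℚ) :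
    x ∈ Kott k (minu n a e) ↔ (fun j => x j + (k : ℚ) / n) ∈ SS n (k + n * a) e := by
  have hn0 : (n : ℚ) ≠ 0 := by
    have : (0 : ℚ) < n := by exact_mod_cast hn
    exact this.ne'
  unfold Kott SS
  simp only [Set.mem_ofPred_eq]
  have hs : ∑ j, (minu n a e j : ℚ) = (n : ℚ) * a + e := by
    rw [← poly_full, minu_poly n a e he n le_rfl]
    have : min n e = e := by omega
    rw [this]
  have hsx : ∑ j : Fin n, (x j + (k : ℚ) / n) = ∑ j, x j + k := by
    rw [Finset.sum_add_distrib, Finset.sum_const, Finset.card_univ, Fintype.card_fin, nsmul_eq_mul]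
    congr 1
    field_simp
  constructor
  · rintro ⟨h1, h2, h3⟩
    refine ⟨h1, ?_, fun i hi => ?_⟩
    · rw [hsx, h2, hs]
      push_cast
      ring
    · rw [poly_add x _ i hi]
      have := h3 i hi
      rw [minu_poly n a e he i hi] at this
      have e2 : (i : ℚ) * ((k + n * a : ℤ) : ℚ) / n = i * ((k : ℚ) / n) + i * a := by
        push_cast
        field_simp
      rw [e2]
      linarith
  · rintro ⟨h1, h2, h3⟩
    refine ⟨h1, ?_, fun i hi => ?_⟩
    · rw [hsx] at h2
      rw [hs]
      push_cast at h2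
      linarith
    · have := h3 i hi
      rw [poly_add x _ i hi] at this
      rw [minu_poly n a e he i hi]
      have e2 : (i : ℚ) * ((k + n * a : ℤ) : ℚ) / n = i * ((k : ℚ) / n) + i * a := by
        push_cast
        field_simp
      rw [e2] at this
      linarith

theorem image_iff (n : ℕ) (hn : 1 ≤ n) (k k' a a' : ℤ) (e e' : ℕ) (he : e < n) (he' : e' < n) :
    shift n k k' '' Kott k (minu n a e) = Kott k' (minu n a' e') ↔
      SS n (k + n * a) e = SS n (k' + n * a') e' := by
  have key : ∀ x : Fin n → ℚ, (fun j => shift n k k' x j + (k' : ℚ) / n) =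
      fun j => x j + (k : ℚ) / n := by
    intro x
    funext j
    unfold shift
    ring
  constructor
  · intro h
    ext y
    have hy : (fun j => (y j - (k : ℚ) / n) + (k : ℚ) / n) = y := by funext j; ring
    have hy' : (fun j => (y j - (k' : ℚ) / n) + (k' : ℚ) / n) = y := by funext j; ring
    have h1 := kott_iff n hn k a e he (fun j => y j - (k : ℚ) / n)
    have h2 := kott_iff n hn k' a' e' he' (fun j => y j - (k' : ℚ) / n)
    rw [hy] at h1
    rw [hy'] at h2
    rw [← h1, ← h2, ← h]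
    constructor
    · intro hx
      refine ⟨_, hx, ?_⟩
      funext j
      unfold shift
      ring
    · rintro ⟨x, hx, hxe⟩
      have : (fun j => y j - (k : ℚ) / n) = x := by
        funext j
        have := congrFun hxe j
        unfold shift at this
        linear_combination -this
      rw [this]
      exact hx
  · intro h
    ext z
    constructor
    · rintro ⟨x, hx, rfl⟩
      rw [kott_iff n hn k' a' e' he', key x, ← h, ← kott_iff n hn k a e he]
      exact hx
    · intro hz
      refine ⟨fun j => z j + ((k' : ℚ) - k) / n, ?_, ?_⟩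
      · rw [kott_iff n hn k' a' e' he', ← h] at hz
        rw [kott_iff n hn k a e he]
        have : (fun j => z j + ((k' : ℚ) - k) / n + (k : ℚ) / n) = fun j => z j + (k' : ℚ) / n := by
          funext j
          ring
        rw [this]
        exact hz
      · funext j
        unfold shift
        ring

/-- concavity of the bounding polygon, left part -/
theorem conc_left (n i m E : ℕ) (hi : 0 < i) (hm : m ≤ i) :
    (m : ℚ) * ((min i E : ℕ) : ℚ) ≤ i * ((min m E : ℕ) : ℚ) := by
  rcases Nat.le_total m E with h | h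
  · rw [min_eq_left h]
    have h1 : ((min i E : ℕ) : ℚ) ≤ i := by exact_mod_cast min_le_left i E
    have h2 : (0 : ℚ) ≤ m := by positivity
    nlinarith
  · rw [min_eq_right h, min_eq_right (by omega)]
    have h1 : (m : ℚ) ≤ i := by exact_mod_cast hm
    have h2 : (0 : ℚ) ≤ E := by positivity
    nlinarith

/-- concavity of the bounding polygon, right part -/
theorem conc_right (n i m E : ℕ) (hi : i < n) (hm : i ≤ m) (hmn : m ≤ n) (hE : E < n) :
    ((n : ℚ) - m) * ((min i E : ℕ) : ℚ) + ((m : ℚ) - i) * E ≤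
      ((n : ℚ) - i) * ((min m E : ℕ) : ℚ) := by
  have hmi : (i : ℚ) ≤ m := by exact_mod_cast hm
  have hmn' : (m : ℚ) ≤ n := by exact_mod_cast hmn
  rcases Nat.le_total E m with h | h
  · rw [min_eq_right h]
    have h1 : ((min i E : ℕ) : ℚ) ≤ E := by exact_mod_cast min_le_right i E
    nlinarith
  · rw [min_eq_left h, min_eq_left (by omega)]
    have h1 : (E : ℚ) ≤ n := by exact_mod_cast hE.le
    have h2 : (m : ℚ) ≤ E := by exact_mod_cast h
    nlinarith

theorem basic_mem (n : ℕ) (hn : 1 ≤ n) (K : ℤ) (E : ℕ) (hE : E < n) :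
    (fun _ : Fin n => ((K + E : ℤ) : ℚ) / n) ∈ SS n K E := by
  have hn0 : (0 : ℚ) < n := by exact_mod_cast hn
  refine ⟨⟨fun _ _ _ => le_rfl, fun q => ?_⟩, ?_, fun i hi => ?_⟩
  · by_cases hq : ((K + E : ℤ) : ℚ) / n = q
    · rw [Finset.filter_true_of_mem (fun _ _ => hq), Finset.card_univ, Fintype.card_fin, ← hq]
      have h1 : ((K + E : ℤ) : ℚ) / n = ((K + E : ℤ) : ℚ) / ((n : ℤ) : ℚ) := by simp
      rw [h1]
      have h2 := Rat.den_dvd (K + E) (n : ℤ)
      rw [← Rat.divInt_eq_div]
      exact_mod_cast h2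
    · rw [Finset.filter_false_of_mem (fun _ _ => hq)]
      simp
  · rw [Finset.sum_const, Finset.card_univ, Fintype.card_fin, nsmul_eq_mul]
    field_simp
  · have h0 := poly_add (fun _ : Fin n => (0 : ℚ)) (((K + E : ℤ) : ℚ) / n) i hi
    simp only [zero_add] at h0
    rw [h0]
    have h1 : poly (fun _ : Fin n => (0 : ℚ)) i = 0 := by simp [poly]
    rw [h1, zero_add]
    have h2 := conc_left n n i E (by omega) hi
    have h3 : min n E = E := by omega
    rw [h3] at h2
    have h4 : (i : ℚ) * E / n ≤ ((min i E : ℕ) : ℚ) := by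
      rw [div_le_iff₀ hn0]
      linarith
    have h5 : (i : ℚ) * (((K + E : ℤ) : ℚ) / n) = i * E / n + i * K / n := by
      push_cast
      ring
    rw [h5]
    linarith

theorem SS_le (n : ℕ) (hn : 1 ≤ n) (K K' : ℤ) (E E' : ℕ) (hE : E < n) (hE' : E' < n)
    (h : SS n K E ⊆ SS n K' E') (i : ℕ) (h0 : 0 < i) (hi : i < n) :
    ((min i E : ℕ) : ℤ) + (i * K) / n ≤ ((min i E' : ℕ) : ℤ) + (i * K') / n := by
  have hn0 : (0 : ℚ) < n := by exact_mod_cast hn
  have hnZ : (0 : ℤ) < n := by exact_mod_cast hn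
  have hi0 : (0 : ℚ) < i := by exact_mod_cast h0
  have hin : (i : ℚ) < n := by exact_mod_cast hi
  set H : ℤ := ((min i E : ℕ) : ℤ) + (i * K) / n with hH
  -- it suffices to bound `H` by the real height
  have hsuff : (H : ℚ) ≤ ((min i E' : ℕ) : ℚ) + (i : ℚ) * K' / n → 
      H ≤ ((min i E' : ℕ) : ℤ) + (i * K') / n := by
    intro hle
    have h1 : ((H - ((min i E' : ℕ) : ℤ)) * n : ℤ) ≤ i * K' := by
      have h2 : ((H : ℚ) - ((min i E' : ℕ) : ℚ)) * n ≤ i * K' := by
        have : (H : ℚ) - ((min i E' : ℕ) : ℚ) ≤ (i : ℚ) * K' / n := by linarith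
        rwa [le_div_iff₀ hn0] at this
      exact_mod_cast h2
    have h3 : H - ((min i E' : ℕ) : ℤ) ≤ (i * K') / n := (Int.le_ediv_iff_mul_le hnZ).2 h1
    linarith
  apply hsuff
  have hHle : (H : ℚ) ≤ ((min i E : ℕ) : ℚ) + (i : ℚ) * K / n := by
    have h1 : ((i : ℤ) * K) / n * n ≤ i * K := Int.ediv_mul_le _ hnZ.ne'
    have h2 : ((((i : ℤ) * K) / n : ℤ) : ℚ) * n ≤ i * K := by exact_mod_cast h1
    have h3 : ((((i : ℤ) * K) / n : ℤ) : ℚ) ≤ (i : ℚ) * K / n := by
      rw [le_div_iff₀ hn0]; exact h2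
    rw [hH]
    push_cast
    push_cast at h3
    linarith
  by_cases hcase : (i : ℚ) * ((K + E : ℤ) : ℚ) / n < H
  · obtain ⟨x, hx, hxs, hxi, hxm⟩ := two_slopes n (K + E) H i h0 hi hcase
    have hmem : x ∈ SS n K E := by
      refine ⟨hx, hxs, fun m hm => ?_⟩
      rcases Nat.le_total m i with hmi | hmi
      · rw [(hxm m hm).1 hmi]
        have hc := conc_left n i m E h0 hmi
        have hm0 : (0 : ℚ) ≤ m := by positivity
        rw [div_le_iff₀ hi0]
        have e1 : (((min m E : ℕ) : ℚ) + (m : ℚ) * K / n) * i =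
            i * ((min m E : ℕ) : ℚ) + m * (i * K / n) := by ring
        rw [e1]
        nlinarith
      · rw [(hxm m hm).2 hmi]
        have hc := conc_right n i m E hi hmi hm hE
        have hmn' : (m : ℚ) ≤ n := by exact_mod_cast hm
        have hni : (0 : ℚ) < (n : ℚ) - i := by linarith
        have e1 : (H : ℚ) + ((m : ℚ) - i) * (((K + E : ℤ) : ℚ) - H) / ((n : ℚ) - i) =
            (((n : ℚ) - m) * H + ((m : ℚ) - i) * ((K + E : ℤ) : ℚ)) / ((n : ℚ) - i) := by
          field_simp
          ring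
        rw [e1, div_le_iff₀ hni]
        have e2 : (((min m E : ℕ) : ℚ) + (m : ℚ) * K / n) * ((n : ℚ) - i) =
            ((n : ℚ) - i) * ((min m E : ℕ) : ℚ) + (((n : ℚ) - m) * (i * K / n) + ((m : ℚ) - i) * K) := by
          field_simp
          ring
        rw [e2]
        have e3 : ((n : ℚ) - m) * H ≤ ((n : ℚ) - m) * (((min i E : ℕ) : ℚ) + (i : ℚ) * K / n) :=
          mul_le_mul_of_nonneg_left hHle (by linarith)
        have e4 : ((K + E : ℤ) : ℚ) = (K : ℚ) + (E : ℚ) := by push_cast; ring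
        rw [e4]
        have e5 : ((n : ℚ) - m) * H + ((m : ℚ) - i) * ((K : ℚ) + E) ≤
            ((n : ℚ) - m) * (((min i E : ℕ) : ℚ) + (i : ℚ) * K / n) + ((m : ℚ) - i) * ((K : ℚ) + E) := by
          linarith [e3]
        refine e5.trans ?_
        have e6 : ((n : ℚ) - m) * (((min i E : ℕ) : ℚ) + (i : ℚ) * K / n) + ((m : ℚ) - i) * ((K : ℚ) + E) =
            (((n : ℚ) - m) * ((min i E : ℕ) : ℚ) + ((m : ℚ) - i) * E) +
              (((n : ℚ) - m) * (i * K / n) + ((m : ℚ) - i) * K) := by ring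
        rw [e6]
        exact add_le_add hc le_rfl
    have := (h hmem).2.2 i hi.le
    rw [hxi] at this
    exact this
  · push Not at hcase
    have hb := (h (basic_mem n hn K E hE)).2.2 i hi.le
    have h0' := poly_add (fun _ : Fin n => (0 : ℚ)) (((K + E : ℤ) : ℚ) / n) i hi.le
    simp only [zero_add] at h0'
    rw [h0'] at hb
    have h1 : poly (fun _ : Fin n => (0 : ℚ)) i = 0 := by simp [poly]
    rw [h1, zero_add, ← mul_div_assoc] at hb
    linarith

theorem SS_eq_iff (n : ℕ) (hn : 1 ≤ n) (K K' : ℤ) (E E' : ℕ) (hE : E < n) (hE' : E' < n) :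
    SS n K E = SS n K' E' ↔ K + E = K' + E' ∧ FC n K K' E E' := by
  constructor
  · intro h
    have hb := basic_mem n hn K E hE
    have hb2 := hb
    rw [h] at hb2
    have hT : K + E = K' + E' := by
      have h1 := hb.2.1
      have h2 := hb2.2.1
      rw [h1] at h2
      exact_mod_cast h2
    refine ⟨hT, fun i h0 hi => le_antisymm ?_ ?_⟩
    · exact SS_le n hn K K' E E' hE hE' h.subset i h0 hi
    · exact SS_le n hn K' K E' E hE' hE h.symm.subset i h0 hi
  · rintro ⟨hT, hfc⟩
    ext x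
    constructor
    · rintro ⟨h1, h2, h3⟩
      refine ⟨h1, by rw [h2, hT], ?_⟩
      exact polygon_le n x h1 (K + E) h2 K K' E E' hE hE' rfl hT.symm h3 hfc
    · rintro ⟨h1, h2, h3⟩
      refine ⟨h1, by rw [h2, hT], ?_⟩
      exact polygon_le n x h1 (K' + E') h2 K' K E' E hE' hE rfl hT h3 hfc.symm

/-- **Classification.** `(G, μ, b, μ')` with `G` an inner form of `GL_n`. -/
theorem classification (n : ℕ) (hn : 1 ≤ n) (k k' a a' : ℤ) (e e' : ℕ) (he : e < n)
    (he' : e' < n) :
    shift n k k' '' Kott k (minu n a e) = Kott k' (minu n a' e') ↔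
      k + n * a + e = k' + n * a' + e' ∧
      (e = e' ∨
        ((n : ℤ) ∣ k + e ∧ (e = 0 ∨ e = 1 ∨ e + 1 = n) ∧ (e' = 0 ∨ e' = 1 ∨ e' + 1 = n)) ∨
        ((n : ℤ) ∣ k + e - (((n + 1) / 2 : ℕ) + 1) ∧
          ((e + 1 = (n + 1) / 2 ∧ e' = (n + 1) / 2) ∨ (e = (n + 1) / 2 ∧ e' + 1 = (n + 1) / 2))) ∨
        ((n : ℤ) ∣ k + e - (((n / 2 : ℕ) : ℤ) - 1) ∧
          ((e = n / 2 ∧ e' = n / 2 + 1) ∨ (e = n / 2 + 1 ∧ e' = n / 2)))) := by
  rw [image_iff n hn k k' a a' e e' he he', SS_eq_iff n hn _ _ _ _ he he']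
  have hd : ∀ u : ℤ, ((n : ℤ) ∣ k + n * a + e - u ↔ (n : ℤ) ∣ k + e - u) := by
    intro u
    have : k + n * a + e - u = (k + e - u) + n * a := by ring
    rw [this]
    exact Int.dvd_add_left (dvd_mul_right _ _)
  have hd0 : ((n : ℤ) ∣ k + n * a + e ↔ (n : ℤ) ∣ k + e) := by
    have := hd 0
    simpa using this
  constructor
  · rintro ⟨h1, h2⟩
    refine ⟨h1, ?_⟩
    have := (arith n hn _ _ _ _ he he' h1).1 h2
    unfold Lst at this
    rw [hd0, hd, hd] at this
    exact this
  · rintro ⟨h1, h2⟩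
    refine ⟨h1, (arith n hn _ _ _ _ he he' h1).2 ?_⟩
    unfold Lst
    rw [hd0, hd, hd]
    exact h2


theorem minu_unique (n : ℕ) (hn : 1 ≤ n) (lam : Fin n → ℤ) (h1 : Antitone lam)
    (h2 : ∀ i j, lam i - lam j ≤ 1) : ∃! p : ℤ × ℕ, p.2 < n ∧ lam = minu n p.1 p.2 := by
  classical
  have hl : n - 1 < n := by omega
  set l : Fin n := ⟨n - 1, hl⟩ with hldef
  have hge : ∀ j, lam l ≤ lam j := fun j => h1 (Fin.le_def.2 (by simp only [hldef]; omega))
  have hex : ∃ i : ℕ, ∀ j : Fin n, i ≤ (j : ℕ) → lam j = lam l :=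
    ⟨n - 1, fun j hj => by
      have : j = l := Fin.ext (by simp only [hldef]; omega)
      rw [this]⟩
  obtain ⟨e, hspec, hmin, hle⟩ : ∃ e : ℕ, (∀ j : Fin n, e ≤ (j : ℕ) → lam j = lam l) ∧
      (∀ m < e, ¬ ∀ j : Fin n, m ≤ (j : ℕ) → lam j = lam l) ∧ e ≤ n - 1 :=
    ⟨Nat.find hex, Nat.find_spec hex, fun m hm => Nat.find_min hex hm,
      Nat.find_min' hex (fun j hj => by
        have : j = l := Fin.ext (by simp only [hldef]; omega)
        rw [this])⟩
  have hlam : lam = minu n (lam l) e := by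
    funext j
    unfold minu
    split_ifs with hj
    · have h := hmin j hj
      push Not at h
      obtain ⟨j', hj', hne⟩ := h
      have a1 := hge j'
      have a2 := h2 j l
      have a3 : lam j' ≤ lam j := h1 (Fin.le_def.2 hj')
      omega
    · exact hspec j (by omega)
  refine ⟨(lam l, e), ⟨by simp only; omega, hlam⟩, ?_⟩
  rintro ⟨b, f⟩ ⟨hf, hb⟩
  simp only at hf hb
  have hbl : lam l = b := by
    rw [hb]
    unfold minu
    rw [if_neg]
    simp only [hldef]
    omega
  have hef : f = e := by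
    rcases lt_trichotomy f e with h | h | h
    · have h3 := congrFun (hlam.symm.trans hb) ⟨f, hf⟩
      simp only [minu] at h3
      rw [if_pos h, if_neg (lt_irrefl f)] at h3
      omega
    · exact h
    · have h3 := congrFun (hlam.symm.trans hb) ⟨e, by omega⟩
      simp only [minu] at h3
      rw [if_neg (lt_irrefl e), if_pos h] at h3
      omega
  rw [hef, hbl]


end Pool.Agent.Kottwitz
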