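import Pool.Agent.Kottwitz.Defs

set_option autoImplicit false

/-!
# Kottwitz sets of the unit groups of semisimple `ℚ_p`-algebras
-/

namespace Pool.Agent.Kottwitz.W

open Finset Pool.Agent.Kottwitz

/-- The dominant representative of a minuscule class of cocharacters of `GL_n`. -/
def IsMinDom {n : ℕ} (mu : Fin n → ℤ) : Prop := Antitone mu ∧ ∀ i j, mu i - mu j ≤ 1

/-- The vector with entries `⌊(j+1)k/n⌋ - ⌊jk/n⌋`, `j = 0, …, n-1` (integer division rounds down). -/
def chr (n : ℕ) (k : ℤ) (j : Fin n) : ℤ := (((j : ℕ) : ℤ) + 1) * k / n - ((j : ℕ) : ℤ) * k / n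

/-- The Kottwitz set `B(G, mu)` of `G = ∏ i, Res (G_{k i})`, where `F_i` is a finite extension of
`ℚ_p` of degree `d i`, `G_{k i}` is the inner form of `GL_{n i}` over `F_i` given by the basic class
of slope `k i / n i`, and `Res` is the restriction of scalars from `F_i` to `ℚ_p`; so `G` is the
group of units of a semisimple `ℚ_p`-algebra. A minuscule class of cocharacters of `G` is a family
`mu i t` with `t` running through the `d i` embeddings of `F_i`, and (in terms of the Newton points
over the fields `F_i`, that is `d i` times the Newton points over `ℚ_p`) an element of `B(G)` lies in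
`B(G, mu)` iff for every `i` its component, an element of `B(G_{k i})` over `F_i`, has Kottwitz
invariant the sum of all entries of the `mu i t` and Newton point `≤ ∑ t, mu i t`. -/
def KottB {ι : Type} (n d : ι → ℕ) (k : ι → ℤ) (mu : ∀ i, Fin (d i) → Fin (n i) → ℤ) :
    Set (∀ i, Fin (n i) → ℚ) :=
  {x | ∀ i, x i ∈ Kott (k i) (fun j => ∑ t, mu i t j)}

/-- The bijection `B(G) → B(G_b)`, `[b'] ↦ [b' b⁻¹]`, in terms of Newton points; here `b` is basic
with Kottwitz invariant `(k' i - k i)`. -/
def shiftB {ι : Type} (n : ι → ℕ) (k k' : ι → ℤ) (x : ∀ i, Fin (n i) → ℚ) :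
    ∀ i, Fin (n i) → ℚ := fun i => shift (n i) (k i) (k' i) (x i)

end Pool.Agent.Kottwitz.W
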