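import Pool.Agent.Kottwitz.Proof
import Pool.Agent.Kottwitz.WDefs

set_option autoImplicit false

namespace Pool.Agent.Kottwitz.W

open Finset Pool.Agent.Kottwitz

/-- integral partial sums -/
def A {n : ℕ} (lam : Fin n → ℤ) (i : ℕ) : ℤ :=
  ∑ j ∈ univ.filter (fun j : Fin n => (j : ℕ) < i), lam j

theorem poly_lam {n : ℕ} (lam : Fin n → ℤ) (i : ℕ) :
    poly (fun j => (lam j : ℚ)) i = (A lam i : ℚ) := by
  unfold poly A
  push_cast
  rfl

theorem A_zero {n : ℕ} (lam : Fin n → ℤ) : A lam 0 = 0 := by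
  unfold A
  simp

theorem A_succ {n : ℕ} (lam : Fin n → ℤ) (i : ℕ) (h : i < n) :
    A lam (i + 1) = A lam i + lam ⟨i, h⟩ := by
  have h1 := pl_succ (fun j => (lam j : ℚ)) i h
  rw [poly_lam, poly_lam] at h1
  exact_mod_cast h1

theorem A_low {n : ℕ} (lam : Fin n → ℤ) (hl : Antitone lam) (i t : ℕ) (ht : t < n) (m : ℕ)
    (him : i ≤ m) (hmt : m ≤ t) :
    ((m : ℤ) - i) * lam ⟨t, ht⟩ ≤ A lam m - A lam i := by
  induction m, him using Nat.le_induction with
  | base => simp
  | succ m him ih =>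
    have h1 := ih (by omega)
    rw [A_succ lam m (by omega)]
    have h2 : lam ⟨t, ht⟩ ≤ lam ⟨m, by omega⟩ := hl (Fin.le_def.2 (by simp only; omega))
    push_cast
    nlinarith

theorem A_conc {n : ℕ} (lam : Fin n → ℤ) (hl : Antitone lam) (i m : ℕ) (him : i ≤ m) (l : ℕ)
    (hml : m ≤ l) (hln : l ≤ n) :
    ((l : ℤ) - m) * A lam i + ((m : ℤ) - i) * A lam l ≤ ((l : ℤ) - i) * A lam m := by
  induction l, hml using Nat.le_induction with
  | base => simp
  | succ l hml ih =>
    have h1 := ih (by omega)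
    have h2 := A_low lam hl i l (by omega) m him hml
    rw [A_succ lam l (by omega)]
    push_cast
    nlinarith

/-- the Kottwitz set, transported to `B(GL_n)` -/
def SG (n : ℕ) (k : ℤ) (lam : Fin n → ℤ) : Set (Fin n → ℚ) :=
  {y | IsSlope y ∧ ∑ j, y j = ((k + A lam n : ℤ) : ℚ) ∧
    ∀ i ≤ n, poly y i ≤ (A lam i : ℚ) + (i : ℚ) * k / n}

theorem gkott_iff (n : ℕ) (hn : 1 ≤ n) (k : ℤ) (lam : Fin n → ℤ) (x : Fin n → ℚ) :
    x ∈ Kott k lam ↔ (fun j => x j + (k : ℚ) / n) ∈ SG n k lam := by
  have hn0 : (n : ℚ) ≠ 0 := by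
    have : (0 : ℚ) < n := by exact_mod_cast hn
    exact this.ne'
  unfold Kott SG
  simp only [Set.mem_ofPred_eq]
  have hs : ∑ j, (lam j : ℚ) = (A lam n : ℚ) := by
    rw [← poly_full (fun j => (lam j : ℚ)), poly_lam]
  have hsx : ∑ j : Fin n, (x j + (k : ℚ) / n) = ∑ j, x j + k := by
    rw [Finset.sum_add_distrib, Finset.sum_const, Finset.card_univ, Fintype.card_fin, nsmul_eq_mul]
    congr 1
    field_simp
  constructor
  · rintro ⟨h1, h2, h3⟩
    refine ⟨h1, ?_, fun i hi => ?_⟩
    · rw [hsx, h2, hs]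
      push_cast
      ring
    · rw [poly_add x _ i hi]
      have := h3 i hi
      rw [poly_lam] at this
      rw [← mul_div_assoc]
      linarith
  · rintro ⟨h1, h2, h3⟩
    refine ⟨h1, ?_, fun i hi => ?_⟩
    · rw [hsx] at h2
      rw [hs]
      push_cast at h2
      linarith
    · have := h3 i hi
      rw [poly_add x _ i hi] at this
      rw [poly_lam]
      rw [← mul_div_assoc] at this
      linarith

theorem gimage_iff (n : ℕ) (hn : 1 ≤ n) (k k' : ℤ) (lam lam' : Fin n → ℤ) :
    shift n k k' '' Kott k lam = Kott k' lam' ↔ SG n k lam = SG n k' lam' := by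
  have key : ∀ x : Fin n → ℚ, (fun j => shift n k k' x j + (k' : ℚ) / n) =
      fun j => x j + (k : ℚ) / n := by
    intro x
    funext j
    unfold shift
    ring
  constructor
  · intro h
    ext y
    have hy : (fun j => (y j - (k : ℚ) / n) + (k : ℚ) / n) = y := by funext j; ring
    have hy' : (fun j => (y j - (k' : ℚ) / n) + (k' : ℚ) / n) = y := by funext j; ring
    have h1 := gkott_iff n hn k lam (fun j => y j - (k : ℚ) / n)
    have h2 := gkott_iff n hn k' lam' (fun j => y j - (k' : ℚ) / n)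
    rw [hy] at h1
    rw [hy'] at h2
    rw [← h1, ← h2, ← h]
    constructor
    · intro hx
      refine ⟨_, hx, ?_⟩
      funext j
      unfold shift
      ring
    · rintro ⟨x, hx, hxe⟩
      have : (fun j => y j - (k : ℚ) / n) = x := by
        funext j
        have := congrFun hxe j
        unfold shift at this
        linear_combination -this
      rw [this]
      exact hx
  · intro h
    ext z
    constructor
    · rintro ⟨x, hx, rfl⟩
      rw [gkott_iff n hn k' lam', key x, ← h, ← gkott_iff n hn k lam]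
      exact hx
    · intro hz
      refine ⟨fun j => z j + ((k' : ℚ) - k) / n, ?_, ?_⟩
      · rw [gkott_iff n hn k' lam', ← h] at hz
        rw [gkott_iff n hn k lam]
        have : (fun j => z j + ((k' : ℚ) - k) / n + (k : ℚ) / n) = fun j => z j + (k' : ℚ) / n := by
          funext j
          ring
        rw [this]
        exact hz
      · funext j
        unfold shift
        ring

theorem gbasic_mem (n : ℕ) (hn : 1 ≤ n) (k : ℤ) (lam : Fin n → ℤ) (hl : Antitone lam) :
    (fun _ : Fin n => ((k + A lam n : ℤ) : ℚ) / n) ∈ SG n k lam := by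
  have hn0 : (0 : ℚ) < n := by exact_mod_cast hn
  refine ⟨⟨fun _ _ _ => le_rfl, fun q => ?_⟩, ?_, fun i hi => ?_⟩
  · by_cases hq : ((k + A lam n : ℤ) : ℚ) / n = q
    · rw [Finset.filter_true_of_mem (fun _ _ => hq), Finset.card_univ, Fintype.card_fin, ← hq]
      have h1 : ((k + A lam n : ℤ) : ℚ) / n = ((k + A lam n : ℤ) : ℚ) / ((n : ℤ) : ℚ) := by simp
      rw [h1]
      have h2 := Rat.den_dvd (k + A lam n) (n : ℤ)
      rw [← Rat.divInt_eq_div]
      exact_mod_cast h2
    · rw [Finset.filter_false_of_mem (fun _ _ => hq)]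
      simp
  · rw [Finset.sum_const, Finset.card_univ, Fintype.card_fin, nsmul_eq_mul]
    field_simp
  · have h0 := poly_add (fun _ : Fin n => (0 : ℚ)) (((k + A lam n : ℤ) : ℚ) / n) i hi
    simp only [zero_add] at h0
    rw [h0]
    have h1 : poly (fun _ : Fin n => (0 : ℚ)) i = 0 := by simp [poly]
    rw [h1, zero_add]
    have h2 := A_conc lam hl 0 i (by omega) n hi le_rfl
    rw [A_zero] at h2
    have h2' : (i : ℚ) * (A lam n : ℚ) ≤ n * (A lam i : ℚ) := by
      have : (i : ℤ) * A lam n ≤ n * A lam i := by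
        push_cast at h2
        linarith
      exact_mod_cast this
    have h4 : (i : ℚ) * (A lam n : ℚ) / n ≤ (A lam i : ℚ) := by
      rw [div_le_iff₀ hn0]
      linarith
    have h5 : (i : ℚ) * (((k + A lam n : ℤ) : ℚ) / n) = i * (A lam n : ℚ) / n + i * k / n := by
      push_cast
      ring
    rw [h5]
    linarith

theorem SG_le (n : ℕ) (hn : 1 ≤ n) (k k' : ℤ) (lam lam' : Fin n → ℤ) (hl : Antitone lam)
    (h : SG n k lam ⊆ SG n k' lam') (i : ℕ) (h0 : 0 < i) (hi : i < n) :
    A lam i + (i * k) / n ≤ A lam' i + (i * k') / n := by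
  have hn0 : (0 : ℚ) < n := by exact_mod_cast hn
  have hnZ : (0 : ℤ) < n := by exact_mod_cast hn
  have hi0 : (0 : ℚ) < i := by exact_mod_cast h0
  have hin : (i : ℚ) < n := by exact_mod_cast hi
  obtain ⟨H, hH⟩ : ∃ H : ℤ, H = A lam i + (i * k) / n := ⟨_, rfl⟩
  rw [← hH]
  have hsuff : (H : ℚ) ≤ (A lam' i : ℚ) + (i : ℚ) * k' / n → H ≤ A lam' i + (i * k') / n := by
    intro hle
    have h1 : ((H - A lam' i) * n : ℤ) ≤ i * k' := by
      have h2 : ((H : ℚ) - (A lam' i : ℚ)) * n ≤ i * k' := by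
        have : (H : ℚ) - (A lam' i : ℚ) ≤ (i : ℚ) * k' / n := by linarith
        rwa [le_div_iff₀ hn0] at this
      exact_mod_cast h2
    have h3 : H - A lam' i ≤ (i * k') / n := (Int.le_ediv_iff_mul_le hnZ).2 h1
    linarith
  apply hsuff
  have hHle : (H : ℚ) ≤ (A lam i : ℚ) + (i : ℚ) * k / n := by
    have h1 : ((i : ℤ) * k) / n * n ≤ i * k := Int.ediv_mul_le _ hnZ.ne'
    have h2 : ((((i : ℤ) * k) / n : ℤ) : ℚ) * n ≤ i * k := by exact_mod_cast h1
    have h3 : ((((i : ℤ) * k) / n : ℤ) : ℚ) ≤ (i : ℚ) * k / n := by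
      rw [le_div_iff₀ hn0]; exact h2
    rw [hH, Int.cast_add]
    linarith
  by_cases hcase : (i : ℚ) * ((k + A lam n : ℤ) : ℚ) / n < H
  · obtain ⟨x, hx, hxs, hxi, hxm⟩ := two_slopes n (k + A lam n) H i h0 hi hcase
    have hmem : x ∈ SG n k lam := by
      refine ⟨hx, hxs, fun m hm => ?_⟩
      rcases Nat.le_total m i with hmi | hmi
      · rw [(hxm m hm).1 hmi]
        have hc : (m : ℚ) * (A lam i : ℚ) ≤ i * (A lam m : ℚ) := by
          have h2 := A_conc lam hl 0 m (by omega) i hmi hi.le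
          rw [A_zero] at h2
          have : (m : ℤ) * A lam i ≤ i * A lam m := by
            push_cast at h2
            linarith
          exact_mod_cast this
        have hm0 : (0 : ℚ) ≤ m := by positivity
        rw [div_le_iff₀ hi0]
        have e1 : ((A lam m : ℚ) + (m : ℚ) * k / n) * i =
            i * (A lam m : ℚ) + m * (i * k / n) := by ring
        rw [e1]
        have e2 : (m : ℚ) * H ≤ m * ((A lam i : ℚ) + (i : ℚ) * k / n) :=
          mul_le_mul_of_nonneg_left hHle hm0
        linarith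
      · rw [(hxm m hm).2 hmi]
        have hc : ((n : ℚ) - m) * (A lam i : ℚ) + ((m : ℚ) - i) * (A lam n : ℚ) ≤
            ((n : ℚ) - i) * (A lam m : ℚ) := by
          have h2 := A_conc lam hl i m hmi n hm le_rfl
          exact_mod_cast h2
        have hmn' : (m : ℚ) ≤ n := by exact_mod_cast hm
        have hni : (0 : ℚ) < (n : ℚ) - i := by linarith
        have e1 : (H : ℚ) + ((m : ℚ) - i) * (((k + A lam n : ℤ) : ℚ) - H) / ((n : ℚ) - i) =
            (((n : ℚ) - m) * H + ((m : ℚ) - i) * ((k + A lam n : ℤ) : ℚ)) / ((n : ℚ) - i) := by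
          field_simp
          ring
        rw [e1, div_le_iff₀ hni]
        have e2 : ((A lam m : ℚ) + (m : ℚ) * k / n) * ((n : ℚ) - i) =
            ((n : ℚ) - i) * (A lam m : ℚ) + (((n : ℚ) - m) * (i * k / n) + ((m : ℚ) - i) * k) := by
          field_simp
          ring
        rw [e2]
        have e3 : ((n : ℚ) - m) * H ≤ ((n : ℚ) - m) * ((A lam i : ℚ) + (i : ℚ) * k / n) :=
          mul_le_mul_of_nonneg_left hHle (by linarith)
        rw [Int.cast_add]
        linarith
    have := (h hmem).2.2 i hi.le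
    rw [hxi] at this
    exact this
  · push Not at hcase
    have hb := (h (gbasic_mem n hn k lam hl)).2.2 i hi.le
    have h0' := poly_add (fun _ : Fin n => (0 : ℚ)) (((k + A lam n : ℤ) : ℚ) / n) i hi.le
    simp only [zero_add] at h0'
    rw [h0'] at hb
    have h1 : poly (fun _ : Fin n => (0 : ℚ)) i = 0 := by simp [poly]
    rw [h1, zero_add, ← mul_div_assoc] at hb
    linarith

theorem gpolygon_le (n : ℕ) (x : Fin n → ℚ) (hx : IsSlope x) (T : ℤ) (hT : ∑ j, x j = T)
    (k k' : ℤ) (lam lam' : Fin n → ℤ) (hl' : Antitone lam') (h2 : k' + A lam' n = T)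
    (hle : ∀ i ≤ n, poly x i ≤ (A lam i : ℚ) + (i : ℚ) * k / n)
    (hfc : ∀ i : ℕ, 0 < i → i < n → A lam i + (i * k) / n = A lam' i + (i * k') / n) :
    ∀ i ≤ n, poly x i ≤ (A lam' i : ℚ) + (i : ℚ) * k' / n := by
  intro i0 hi0
  by_contra hcon
  rw [not_le] at hcon
  rcases Nat.eq_zero_or_pos n with hn | hn
  · subst hn
    have : i0 = 0 := by omega
    subst this
    simp [poly, A] at hcon
  have hnq : (0 : ℚ) < n := by exact_mod_cast hn
  obtain ⟨g, hg⟩ : ∃ g : ℕ → ℚ, g = fun i => poly x i - ((A lam' i : ℚ) + (i : ℚ) * k' / n) :=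
    ⟨_, rfl⟩
  obtain ⟨m, hm, hmax⟩ := Finset.exists_max_image (Finset.range (n + 1)) g ⟨0, by simp⟩
  have hex : ∃ i, i ≤ n ∧ g i = g m := ⟨m, by
    rw [mem_range] at hm; omega, rfl⟩
  obtain ⟨i, ⟨hi1, hi2⟩, hmin⟩ : ∃ i, (i ≤ n ∧ g i = g m) ∧ ∀ j < i, ¬ (j ≤ n ∧ g j = g m) :=
    ⟨Nat.find hex, Nat.find_spec hex, fun j hj => Nat.find_min hex hj⟩
  have hpos : 0 < g i := by
    have h3 := hmax i0 (by rw [mem_range]; omega)
    have h4 : 0 < g i0 := by
      rw [hg]
      simp only
      linarith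
    linarith
  have hi_pos : 0 < i := by
    rcases Nat.eq_zero_or_pos i with h0 | h0
    · exfalso
      rw [h0, hg] at hpos
      simp [poly, A] at hpos
    · exact h0
  have hi_lt : i < n := by
    rcases Nat.lt_or_ge i n with h0 | h0
    · exact h0
    · exfalso
      have hin : i = n := by omega
      rw [hin, hg] at hpos
      have e1 : poly x n = T := by
        rw [← hT, poly_full]
      have e2 : (n : ℚ) * k' / n = k' := by field_simp
      simp only [e1, e2] at hpos
      have h5 : (k' : ℚ) + (A lam' n : ℚ) = T := by exact_mod_cast h2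
      linarith
  obtain ⟨l, hk⟩ : ∃ l, i = l + 1 := ⟨i - 1, by omega⟩
  have hgk : g l < g i := by
    have h3 : g l ≤ g m := hmax l (by rw [mem_range]; omega)
    have h4 : g l ≠ g m := fun h => hmin l (by omega) ⟨by omega, h⟩
    rw [hi2]
    exact lt_of_le_of_ne h3 h4
  have hgi : g (i + 1) ≤ g i := by
    rw [hi2]
    exact hmax (i + 1) (by rw [mem_range]; omega)
  have hb : x ⟨i, hi_lt⟩ < x ⟨l, by omega⟩ := by
    have e1 := pl_succ x i hi_lt
    have e2 := pl_succ x l (by omega)
    rw [← hk] at e2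
    rw [hg] at hgk hgi
    simp only at hgk hgi
    have c1 : (A lam' (i + 1) : ℚ) + (A lam' l : ℚ) ≤ (A lam' i : ℚ) + (A lam' i : ℚ) := by
      have a1 := A_succ lam' i hi_lt
      have a2 := A_succ lam' l (by omega)
      rw [← hk] at a2
      have a3 : lam' ⟨i, hi_lt⟩ ≤ lam' ⟨l, by omega⟩ := hl' (Fin.le_def.2 (by simp only; omega))
      have : A lam' (i + 1) + A lam' l ≤ A lam' i + A lam' i := by linarith
      exact_mod_cast this
    have c2 : (((i + 1 : ℕ)) : ℚ) * k' / n + ((l : ℕ) : ℚ) * k' / n =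
        (i : ℚ) * k' / n + (i : ℚ) * k' / n := by
      rw [hk]
      push_cast
      ring
    linarith
  obtain ⟨z, hz⟩ := slope_break x hx i hi1 (fun h0 h1' => by
    have : (⟨i - 1, by omega⟩ : Fin n) = ⟨l, by omega⟩ := by
      apply Fin.ext
      simp only
      omega
    rw [this]
    exact hb)
  have h6 := hle i hi1
  rw [hz] at h6
  have h7 : z - A lam i ≤ (i * k) / n := by
    rw [Int.le_ediv_iff_mul_le (by exact_mod_cast hn)]
    have h8 : ((z : ℚ) - (A lam i : ℚ)) * n ≤ (i : ℚ) * k := by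
      rw [← le_div_iff₀ hnq]
      linarith
    exact_mod_cast h8
  have h9 : z ≤ A lam' i + (i * k') / n := by
    rw [← hfc i hi_pos hi_lt]
    linarith
  have h10 : (((i * k') / n : ℤ) : ℚ) ≤ (i : ℚ) * k' / n := by
    rw [le_div_iff₀ hnq]
    have := Int.ediv_mul_le ((i : ℤ) * k') (show (n : ℤ) ≠ 0 by exact_mod_cast hn.ne')
    exact_mod_cast this
  have h11 : (z : ℚ) ≤ (A lam' i : ℚ) + (((i * k') / n : ℤ) : ℚ) := by exact_mod_cast h9
  rw [hg] at hpos
  simp only at hpos
  rw [hz] at hpos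
  linarith

theorem SG_eq_iff (n : ℕ) (hn : 1 ≤ n) (k k' : ℤ) (lam lam' : Fin n → ℤ) (hl : Antitone lam)
    (hl' : Antitone lam') :
    SG n k lam = SG n k' lam' ↔ k + A lam n = k' + A lam' n ∧
      ∀ i : ℕ, 0 < i → i < n → A lam i + (i * k) / n = A lam' i + (i * k') / n := by
  constructor
  · intro h
    have hb := gbasic_mem n hn k lam hl
    have hb2 := hb
    rw [h] at hb2
    have hT : k + A lam n = k' + A lam' n := by
      have h1 := hb.2.1
      have h2 := hb2.2.1
      rw [h1] at h2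
      exact_mod_cast h2
    refine ⟨hT, fun i h0 hi => le_antisymm ?_ ?_⟩
    · exact SG_le n hn k k' lam lam' hl h.subset i h0 hi
    · exact SG_le n hn k' k lam' lam hl' h.symm.subset i h0 hi
  · rintro ⟨hT, hfc⟩
    ext x
    constructor
    · rintro ⟨h1, h2, h3⟩
      refine ⟨h1, by rw [h2, hT], ?_⟩
      exact gpolygon_le n x h1 (k + A lam n) h2 k k' lam lam' hl' hT.symm h3 hfc
    · rintro ⟨h1, h2, h3⟩
      refine ⟨h1, by rw [h2, hT], ?_⟩
      exact gpolygon_le n x h1 (k' + A lam' n) h2 k' k lam' lam hl hT h3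
        (fun i h0 hi => (hfc i h0 hi).symm)

theorem floors_iff (n : ℕ) (hn : 1 ≤ n) (k k' : ℤ) (lam lam' : Fin n → ℤ) :
    (k + A lam n = k' + A lam' n ∧
      ∀ i : ℕ, 0 < i → i < n → A lam i + (i * k) / n = A lam' i + (i * k') / n) ↔
    ∀ j, lam j + chr n k j = lam' j + chr n k' j := by
  have hnZ : (n : ℤ) ≠ 0 := by
    have : (0 : ℤ) < n := by exact_mod_cast hn
    exact this.ne'
  have hall : (k + A lam n = k' + A lam' n ∧
      ∀ i : ℕ, 0 < i → i < n → A lam i + (i * k) / n = A lam' i + (i * k') / n) ↔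
      ∀ i : ℕ, i ≤ n → A lam i + (i * k) / n = A lam' i + (i * k') / n := by
    constructor
    · rintro ⟨h1, h2⟩ i hi
      rcases Nat.eq_zero_or_pos i with h0 | h0
      · subst h0
        rw [A_zero, A_zero]
        simp
      · rcases Nat.lt_or_ge i n with h3 | h3
        · exact h2 i h0 h3
        · have : i = n := by omega
          subst this
          rw [Int.mul_ediv_cancel_left _ hnZ, Int.mul_ediv_cancel_left _ hnZ]
          linarith
    · intro h
      refine ⟨?_, fun i _ hi => h i hi.le⟩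
      have := h n le_rfl
      rw [Int.mul_ediv_cancel_left _ hnZ, Int.mul_ediv_cancel_left _ hnZ] at this
      linarith
  rw [hall]
  constructor
  · intro h j
    have h1 := h j j.2.le
    have h2 := h (j + 1) j.2
    rw [A_succ lam j j.2, A_succ lam' j j.2] at h2
    unfold chr
    push_cast at h1 h2 ⊢
    simp only [Fin.eta] at h2
    linarith
  · intro h i
    induction i with
    | zero =>
      intro _
      rw [A_zero, A_zero]
      simp
    | succ i ih =>
      intro hi
      have h1 := ih (by omega)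
      have h2 := h ⟨i, by omega⟩
      rw [A_succ lam i (by omega), A_succ lam' i (by omega)]
      unfold chr at h2
      simp only at h2
      push_cast at h1 h2 ⊢
      linarith

/-- general dominant cocharacters -/
theorem general (n : ℕ) (hn : 1 ≤ n) (k k' : ℤ) (lam lam' : Fin n → ℤ) (hl : Antitone lam)
    (hl' : Antitone lam') :
    shift n k k' '' Kott k lam = Kott k' lam' ↔
      ∀ j, lam j + chr n k j = lam' j + chr n k' j := by
  rw [gimage_iff n hn, SG_eq_iff n hn k k' lam lam' hl hl', floors_iff n hn]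

theorem antitone_sum {n d : ℕ} (mu : Fin d → Fin n → ℤ) (h : ∀ t, IsMinDom (mu t)) :
    Antitone (fun j => ∑ t, mu t j) := by
  intro a b hab
  exact Finset.sum_le_sum (fun t _ => (h t).1 hab)

/-- dominant vectors of small spread are sums of minuscule ones -/
theorem decomp (n d : ℕ) (hn : 1 ≤ n) (hd : 1 ≤ d) (v : Fin n → ℤ) (hv : Antitone v)
    (hs : ∀ i j, v i - v j ≤ d) :
    ∃ mu : Fin d → Fin n → ℤ, (∀ t, IsMinDom (mu t)) ∧ ∀ j, ∑ t, mu t j = v j := by
  classical
  set l : Fin n := ⟨n - 1, by omega⟩ with hldef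
  have hge : ∀ j, v l ≤ v j := fun j => hv (Fin.le_def.2 (by simp only [hldef]; omega))
  refine ⟨fun t j => (if ((t : ℕ) : ℤ) < v j - v l then 1 else 0) +
    (if (t : ℕ) = 0 then v l else 0), fun t => ⟨?_, ?_⟩, fun j => ?_⟩
  · intro a b hab
    have := hv hab
    simp only
    split_ifs <;> omega
  · intro a b
    simp only
    split_ifs <;> omega
  · rw [Finset.sum_add_distrib]
    have h1 : ∑ t : Fin d, (if (t : ℕ) = 0 then v l else 0) = v l := by
      rw [Finset.sum_eq_single (⟨0, by omega⟩ : Fin d)]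
      · simp
      · intro b _ hb
        rw [if_neg]
        intro h0
        exact hb (Fin.ext h0)
      · intro h0
        exact absurd (Finset.mem_univ _) h0
    have h2 : ∑ t : Fin d, (if ((t : ℕ) : ℤ) < v j - v l then (1 : ℤ) else 0) = v j - v l := by
      obtain ⟨w, hw⟩ : ∃ w : ℕ, v j - v l = w := ⟨(v j - v l).toNat, by
        have := hge j
        omega⟩
      have hwd : w ≤ d := by
        have := hs j l
        omega
      rw [hw, ← Finset.sum_filter, Finset.sum_const, nsmul_eq_mul, mul_one]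
      have h3 : (univ.filter (fun t : Fin d => ((t : ℕ) : ℤ) < (w : ℤ))).card = w := by
        have : (univ.filter (fun t : Fin d => ((t : ℕ) : ℤ) < (w : ℤ))) =
            univ.filter (fun t : Fin d => (t : ℕ) < w) := by
          ext t
          simp
        rw [this, Fin.card_filter_val_lt]
        omega
      exact_mod_cast h3
    rw [h1, h2]
    ring

/-- **Weil restrictions.** -/
theorem weil (n d : ℕ) (hn : 1 ≤ n) (hd : 1 ≤ d) (k k' : ℤ) (mu : Fin d → Fin n → ℤ)
    (h : ∀ t, IsMinDom (mu t)) :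
    (∀ mu' : Fin d → Fin n → ℤ, (∀ t, IsMinDom (mu' t)) →
      (shift n k k' '' Kott k (fun j => ∑ t, mu t j) = Kott k' (fun j => ∑ t, mu' t j) ↔
        ∀ j, ∑ t, mu t j + chr n k j = ∑ t, mu' t j + chr n k' j)) ∧
    ((∃ mu' : Fin d → Fin n → ℤ, (∀ t, IsMinDom (mu' t)) ∧
      shift n k k' '' Kott k (fun j => ∑ t, mu t j) = Kott k' (fun j => ∑ t, mu' t j)) ↔
      (Antitone fun j => ∑ t, mu t j + chr n k j - chr n k' j) ∧
      ∀ i j, (∑ t, mu t i + chr n k i - chr n k' i) - (∑ t, mu t j + chr n k j - chr n k' j) ≤ d) := by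
  have first : ∀ mu' : Fin d → Fin n → ℤ, (∀ t, IsMinDom (mu' t)) →
      (shift n k k' '' Kott k (fun j => ∑ t, mu t j) = Kott k' (fun j => ∑ t, mu' t j) ↔
        ∀ j, ∑ t, mu t j + chr n k j = ∑ t, mu' t j + chr n k' j) := by
    intro mu' h'
    rw [general n hn k k' _ _ (antitone_sum mu h) (antitone_sum mu' h')]
  refine ⟨first, ?_⟩
  constructor
  · rintro ⟨mu', h', he⟩
    have h1 := (first mu' h').1 he
    have h2 : (fun j => ∑ t, mu t j + chr n k j - chr n k' j) = fun j => ∑ t, mu' t j := by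
      funext j
      linarith [h1 j]
    rw [h2]
    refine ⟨antitone_sum mu' h', fun i j => ?_⟩
    have h3 := h1 i
    have h4 := h1 j
    have h5 : ∑ t, mu' t i - ∑ t, mu' t j ≤ d := by
      rw [← Finset.sum_sub_distrib]
      calc ∑ t, (mu' t i - mu' t j) ≤ ∑ _t : Fin d, (1 : ℤ) :=
            Finset.sum_le_sum (fun t _ => (h' t).2 i j)
        _ = d := by simp
    linarith
  · rintro ⟨h1, h2⟩
    obtain ⟨mu', h', hs⟩ := decomp n d hn hd _ h1 h2
    refine ⟨mu', h', (first mu' h').2 fun j => ?_⟩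
    rw [hs j]
    ring

theorem kott_nonempty (n : ℕ) (hn : 1 ≤ n) (k : ℤ) (lam : Fin n → ℤ) (hl : Antitone lam) :
    ∃ x, x ∈ Kott k lam := by
  have h := gbasic_mem n hn k lam hl
  refine ⟨fun _ => ((k + A lam n : ℤ) : ℚ) / n - (k : ℚ) / n, ?_⟩
  rw [gkott_iff n hn]
  have : (fun _ : Fin n => ((k + A lam n : ℤ) : ℚ) / n - (k : ℚ) / n + (k : ℚ) / n) =
      fun _ : Fin n => ((k + A lam n : ℤ) : ℚ) / n := by
    funext j
    ring
  rw [this]
  exact h

/-- equality of product sets is equality of the factors -/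
theorem prod_iff {ι : Type} (n : ι → ℕ) (hn : ∀ i, 1 ≤ n i) (k k' : ι → ℤ)
    (lam lam' : ∀ i, Fin (n i) → ℤ) (hl : ∀ i, Antitone (lam i)) (hl' : ∀ i, Antitone (lam' i)) :
    (fun (x : ∀ i, Fin (n i) → ℚ) i => shift (n i) (k i) (k' i) (x i)) ''
        {x | ∀ i, x i ∈ Kott (k i) (lam i)} = {x | ∀ i, x i ∈ Kott (k' i) (lam' i)} ↔
      ∀ i, shift (n i) (k i) (k' i) '' Kott (k i) (lam i) = Kott (k' i) (lam' i) := by
  classical
  choose b hb using fun i => kott_nonempty (n i) (hn i) (k i) (lam i) (hl i)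
  choose b' hb' using fun i => kott_nonempty (n i) (hn i) (k' i) (lam' i) (hl' i)
  constructor
  · intro h i0
    ext z
    constructor
    · rintro ⟨x, hx, rfl⟩
      have h1 : (fun i => shift (n i) (k i) (k' i) (Function.update b i0 x i)) ∈
          {x : ∀ i, Fin (n i) → ℚ | ∀ i, x i ∈ Kott (k' i) (lam' i)} := by
        rw [← h]
        refine ⟨Function.update b i0 x, fun i => ?_, rfl⟩
        by_cases hi : i = i0
        · subst hi
          rw [Function.update_self]
          exact hx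
        · rw [Function.update_of_ne hi]
          exact hb i
      have h2 := h1 i0
      simp only [Function.update_self] at h2
      exact h2
    · intro hz
      have h1 : Function.update b' i0 z ∈
          {x : ∀ i, Fin (n i) → ℚ | ∀ i, x i ∈ Kott (k' i) (lam' i)} := by
        intro i
        by_cases hi : i = i0
        · subst hi
          rw [Function.update_self]
          exact hz
        · rw [Function.update_of_ne hi]
          exact hb' i
      rw [← h] at h1
      obtain ⟨y, hy, hye⟩ := h1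
      refine ⟨y i0, hy i0, ?_⟩
      have h2 := congrFun hye i0
      simp only [Function.update_self] at h2
      exact h2
  · intro h
    ext z
    constructor
    · rintro ⟨x, hx, rfl⟩ i
      rw [← h i]
      exact ⟨x i, hx i, rfl⟩
    · intro hz
      have h1 : ∀ i, ∃ y, y ∈ Kott (k i) (lam i) ∧ shift (n i) (k i) (k' i) y = z i := by
        intro i
        have h2 := hz i
        rw [← h i] at h2
        exact h2
      choose y hy hye using h1
      exact ⟨y, hy, funext hye⟩

/-- **Semisimple algebras.** -/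
theorem semisimple {ι : Type} (n d : ι → ℕ) (hn : ∀ i, 1 ≤ n i) (hd : ∀ i, 1 ≤ d i)
    (k k' : ι → ℤ) (mu : ∀ i, Fin (d i) → Fin (n i) → ℤ) (h : ∀ i t, IsMinDom (mu i t)) :
    (∀ mu' : ∀ i, Fin (d i) → Fin (n i) → ℤ, (∀ i t, IsMinDom (mu' i t)) →
      (shiftB n k k' '' KottB n d k mu = KottB n d k' mu' ↔
        ∀ i j, ∑ t, mu i t j + chr (n i) (k i) j = ∑ t, mu' i t j + chr (n i) (k' i) j)) ∧
    ((∃ mu' : ∀ i, Fin (d i) → Fin (n i) → ℤ, (∀ i t, IsMinDom (mu' i t)) ∧
      shiftB n k k' '' KottB n d k mu = KottB n d k' mu') ↔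
      ∀ i, (Antitone fun j => ∑ t, mu i t j + chr (n i) (k i) j - chr (n i) (k' i) j) ∧
      ∀ j l, (∑ t, mu i t j + chr (n i) (k i) j - chr (n i) (k' i) j) -
        (∑ t, mu i t l + chr (n i) (k i) l - chr (n i) (k' i) l) ≤ d i) := by
  have first : ∀ mu' : ∀ i, Fin (d i) → Fin (n i) → ℤ, (∀ i t, IsMinDom (mu' i t)) →
      (shiftB n k k' '' KottB n d k mu = KottB n d k' mu' ↔
        ∀ i, shift (n i) (k i) (k' i) '' Kott (k i) (fun j => ∑ t, mu i t j) =
          Kott (k' i) (fun j => ∑ t, mu' i t j)) := by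
    intro mu' h'
    exact prod_iff n hn k k' _ _ (fun i => antitone_sum (mu i) (h i))
      (fun i => antitone_sum (mu' i) (h' i))
  refine ⟨fun mu' h' => ?_, ?_⟩
  · rw [first mu' h']
    exact forall_congr' fun i => (weil (n i) (d i) (hn i) (hd i) (k i) (k' i) (mu i) (h i)).1
      (mu' i) (h' i)
  · constructor
    · rintro ⟨mu', h', he⟩ i
      exact ((weil (n i) (d i) (hn i) (hd i) (k i) (k' i) (mu i) (h i)).2).1
        ⟨mu' i, h' i, (first mu' h').1 he i⟩
    · intro hi
      choose mu' h' he using fun i =>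
        ((weil (n i) (d i) (hn i) (hd i) (k i) (k' i) (mu i) (h i)).2).2 (hi i)
      exact ⟨mu', h', (first mu' h').2 he⟩

end Pool.Agent.Kottwitz.W
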